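import Pool.Agent.Helper1K9.PK.Defs

/-!
Abelian covers of projective space which are branched over hyperplanes, without some of these
hyperplanes.
-/

set_option autoImplicit false

namespace Pool.Agent.Helper1K9.PN

/-- The discrete data of an open subset of an abelian cover of `ℙⁿ` which is branched over
hyperplanes: the cover with the homogeneous equations
`y_k ^ (m k) = ∏_i (∑_j c i j g_j) ^ (e k i)`, for `k = 1, ..., r`, where `g_0, ..., g_n` are the
homogeneous coordinates of `ℙⁿ` (and the weight of `y_k` is `(∑_i e k i) / m k`), without the points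
over the hyperplanes with index in `bd`. -/
structure Cover (n q r : ℕ) where
  /-- the coefficients of the linear forms -/
  c : Fin q → Fin (n + 1) → ℂ
  /-- the exponents -/
  e : Fin r → Fin q → ℕ
  /-- the degrees of the equations -/
  m : Fin r → ℕ
  /-- the hyperplanes which are removed -/
  bd : Set (Fin q)
  m_pos : ∀ k, 0 < m k
  /-- the weights are integers -/
  bal : ∀ k, m k ∣ ∑ i, e k i

namespace Cover

variable {n q r : ℕ} (X : Cover n q r)

/-- the value of the linear form with index `i` -/
noncomputable def lin {L : Type} [Field L] [Algebra ℂ L] (i : Fin q) (g : Fin (n + 1) → L) : L :=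
  ∑ j, algebraMap ℂ L (X.c i j) * g j

/-- `(g, y)` satisfies the equations of the cover, in the field `L`, and is not over one of the
hyperplanes. -/
structure Pt {L : Type} [Field L] [Algebra ℂ L] (g : Fin (n + 1) → L) (y : Fin r → L) : Prop where
  eq : ∀ k, y k ^ X.m k = ∏ i, X.lin i g ^ X.e k i
  off : ∀ i, X.lin i g ≠ 0

/-- The possible intersection multiplicities `v i` of a curve germ on the cover with the
hyperplanes: the hyperplanes with `v i ≠ 0` have a common point, `v i = 0` for the hyperplanes which
are removed, and the numbers satisfy the congruences which are given by the equations. -/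
structure Mult (v : Fin q → ℕ) : Prop where
  com : ∃ x : Fin (n + 1) → ℂ, x ≠ 0 ∧ ∀ i, v i ≠ 0 → ∑ j, X.c i j * x j = 0
  bd : ∀ i ∈ X.bd, v i = 0
  dvd : ∀ k, X.m k ∣ ∑ i, X.e k i * v i

/-- No point is contained in `N + 1` of the hyperplanes. -/
def Subgeneral (N : ℕ) : Prop :=
  ∀ F : Finset (Fin q), F.card = N + 1 → ∀ x : Fin (n + 1) → ℂ,
    (∀ i ∈ F, ∑ j, X.c i j * x j = 0) → x = 0

/-- No point is contained in `N + 1` of the `q` hyperplanes, and the multiplicities are large, for
certain weights, compared with the number of the hyperplanes: for some weights `p i / Q` all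
multiplicities `v ≠ 0` of curve germs satisfy `∑ (p i / Q) v i ≥ 1`, and
`q > (2 N + 1 - l) (1 + (l / 2) ∑ (p i / Q))` for `1 ≤ l ≤ n`. -/
def Big : Prop :=
  ∃ (N : ℕ) (p : Fin q → ℕ) (Q : ℕ), n ≤ N ∧ X.Subgeneral N ∧ 0 < Q ∧
    (∀ v, X.Mult v → v ≠ 0 → Q ≤ ∑ i, p i * v i) ∧
    ∀ l, 1 ≤ l → l ≤ n → (2 * N + 1 - l) * (2 * Q + l * ∑ i, p i) < 2 * Q * q

end Cover

end Pool.Agent.Helper1K9.PN
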