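import Pool.Agent.Helper1K9.PN.GT
import Pool.Agent.Helper1K9.PN.Defs
import Pool.Agent.TH152.HY.Core
import Pool.Agent.Helper1K9.PK.Alg

/-!
The varieties with a generically finite map to a closed subvariety of a cover of projective space,
not contained in the branch locus: they are of general type, and so are their closed subvarieties
off a proper closed subset.
-/

set_option autoImplicit false
set_option linter.overlappingInstances false

open FF Pool.Agent.W603.LV Pool.Agent.W602.GT Pool.Agent.TH466.QG Pool.Agent.W602.Cov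
  Pool.Agent.TH152.AC

namespace Pool.Agent.Helper1K9.PN

open PK (alg_mono alg_spec0 spread0)

/-- forms without common zeros generate all forms -/
theorem span_top_of {l q : ℕ} {ℓ : Fin q → Form l} {S : Set (Fin q)}
    (h : ∀ x : Fin (l + 1) → ℂ, (∀ i ∈ S, ℓ i x = 0) → x = 0) :
    Submodule.span ℂ (ℓ '' S) = ⊤ := by
  have h1 : (Submodule.span ℂ (ℓ '' S)).dualCoannihilator = ⊥ := by
    rw [Submodule.eq_bot_iff]
    intro x hx
    apply h
    intro i hi
    rw [Submodule.mem_dualCoannihilator] at hx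
    exact hx _ (Submodule.subset_span ⟨i, hi, rfl⟩)
  have h2 := Subspace.finrank_add_finrank_dualCoannihilator_eq (K := ℂ)
    (V := Fin (l + 1) → ℂ) (Submodule.span ℂ (ℓ '' S))
  rw [h1, finrank_bot, add_zero, Module.finrank_fintype_fun_eq_card, Fintype.card_fin] at h2
  apply Submodule.eq_top_of_finrank_eq
  rw [finrank_form]
  exact h2

theorem exists_zero {l q : ℕ} {ℓ : Fin q → Form l} {S : Set (Fin q)}
    (h : Submodule.span ℂ (ℓ '' S) ≠ ⊤) : ∃ x : Fin (l + 1) → ℂ, x ≠ 0 ∧ ∀ i ∈ S, ℓ i x = 0 := by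
  by_contra hcon
  push Not at hcon
  exact h (span_top_of fun x hx => by
    by_contra hx0
    obtain ⟨i, hi, h1⟩ := hcon x hx0
    exact h1 (hx i hi))

variable {n q r : ℕ} (X : Cover n q r)

/-- the linear forms -/
noncomputable def Cover.fm (i : Fin q) : Form n := ∑ j, X.c i j • LinearMap.proj j

theorem fm_apply (i : Fin q) (x : Fin (n + 1) → ℂ) : X.fm i x = ∑ j, X.c i j * x j := by
  unfold Cover.fm
  rw [LinearMap.sum_apply]
  exact Finset.sum_congr rfl fun j _ => rfl

theorem fm_single (i : Fin q) (j : Fin (n + 1)) : X.fm i (Pi.single j 1) = X.c i j := by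
  rw [fm_apply, Finset.sum_eq_single j]
  · simp
  · intro b _ hb
    rw [Pi.single_eq_of_ne hb, mul_zero]
  · intro h
    exact absurd (Finset.mem_univ _) h

theorem lin_eq {L : Type} [Field L] [Algebra ℂ L] (i : Fin q) (g : Fin (n + 1) → L) :
    X.lin i g = fv g (X.fm i) := by
  unfold Cover.lin fv
  exact Finset.sum_congr rfl fun j _ => by rw [fm_single]

theorem fv_proj {L : Type} [Field L] [Algebra ℂ L] (g : Fin (n + 1) → L) (j : Fin (n + 1)) :
    fv g (LinearMap.proj j : Form n) = g j := by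
  unfold fv
  rw [Finset.sum_eq_single j]
  · simp
  · intro b _ hb
    rw [LinearMap.proj_apply, Pi.single_eq_of_ne hb.symm, map_zero, zero_mul]
  · intro h
    exact absurd (Finset.mem_univ _) h

theorem fv_sum {L : Type} [Field L] [Algebra ℂ L] {l : ℕ} (φ : Fin (l + 1) → L) {ι : Type*}
    (s : Finset ι) (a : ι → ℂ) (f : ι → Form l) :
    fv φ (∑ i ∈ s, a i • f i) = ∑ i ∈ s, algebraMap ℂ L (a i) * fv φ (f i) := by
  classical
  induction s using Finset.induction_on with
  | empty => simp [fv_zero]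
  | insert i s hi ih => rw [Finset.sum_insert hi, Finset.sum_insert hi, fv_add, fv_smul, ih]

/-- **The linear span.** -/
theorem reduce {L : Type} [Field L] [Algebra ℂ L] {g : Fin (n + 1) → L} (hg : g ≠ 0) :
    ∃ (l : ℕ) (φ : Fin (l + 1) → L) (A : (Fin (l + 1) → ℂ) →ₗ[ℂ] (Fin (n + 1) → ℂ)), l ≤ n ∧
      LinearIndependent ℂ φ ∧ Function.Injective A ∧
      ∀ f : Form n, fv g f = fv φ (f ∘ₗ A) := by
  classical
  set S : Submodule ℂ L := Submodule.span ℂ (Set.range g) with hS
  have hfd : FiniteDimensional ℂ S := FiniteDimensional.span_of_finite ℂ (Set.finite_range g)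
  have hgS : ∀ j, g j ∈ S := fun j => Submodule.subset_span ⟨j, rfl⟩
  obtain ⟨l, hl⟩ : ∃ l, Module.finrank ℂ S = l + 1 := by
    have h1 : 0 < Module.finrank ℂ S := by
      rw [Module.finrank_pos_iff]
      obtain ⟨j, hj⟩ := Function.ne_iff.1 hg
      exact ⟨⟨⟨g j, hgS j⟩, 0, fun h => hj (congrArg Subtype.val h)⟩⟩
    exact ⟨Module.finrank ℂ S - 1, by omega⟩
  have hln : l ≤ n := by
    have h1 := finrank_range_le_card (R := ℂ) g
    rw [Set.finrank, Fintype.card_fin] at h1
    have h2 : Module.finrank ℂ S = Module.finrank ℂ (Submodule.span ℂ (Set.range g)) := rfl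
    omega
  let b : Module.Basis (Fin (l + 1)) ℂ S := Module.finBasisOfFinrankEq ℂ S hl
  let φ : Fin (l + 1) → L := fun a => (b a : L)
  let a : Fin (n + 1) → Fin (l + 1) → ℂ := fun j i => b.repr ⟨g j, hgS j⟩ i
  have hga : ∀ j, g j = ∑ i, algebraMap ℂ L (a j i) * φ i := by
    intro j
    have h1 := congrArg Subtype.val (b.sum_repr ⟨g j, hgS j⟩)
    rw [AddSubmonoidClass.coe_finsetSum] at h1
    simp only [Submodule.coe_smul] at h1
    rw [← h1]
    exact Finset.sum_congr rfl fun i _ => Algebra.smul_def _ _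
  let A : (Fin (l + 1) → ℂ) →ₗ[ℂ] (Fin (n + 1) → ℂ) :=
    LinearMap.pi fun j => ∑ i, a j i • LinearMap.proj i
  have hA : ∀ y j, A y j = ∑ i, a j i * y i := by
    intro y j
    simp only [A, LinearMap.pi_apply, LinearMap.sum_apply, LinearMap.smul_apply,
      LinearMap.proj_apply, smul_eq_mul]
  have hAs : ∀ i j, A (Pi.single i 1) j = a j i := by
    intro i j
    rw [hA, Finset.sum_eq_single i]
    · simp
    · intro b _ hb
      rw [Pi.single_eq_of_ne hb, mul_zero]
    · intro h
      exact absurd (Finset.mem_univ _) h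
  have hφ : LinearIndependent ℂ φ := by
    have h1 := b.linearIndependent.map' S.subtype (Submodule.ker_subtype S)
    exact h1
  refine ⟨l, φ, A, hln, hφ, ?_, ?_⟩
  · rw [← LinearMap.ker_eq_bot, LinearMap.ker_eq_bot']
    intro y hy
    -- the functional `y` on the span vanishes on the generators
    let Y : S →ₗ[ℂ] ℂ := (∑ i, y i • LinearMap.proj i) ∘ₗ (b.equivFun : S →ₗ[ℂ] (Fin (l + 1) → ℂ))
    have hY : ∀ s, Y s = ∑ i, y i * b.repr s i := by
      intro s
      simp only [Y, LinearMap.comp_apply, LinearMap.sum_apply, LinearMap.smul_apply,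
        LinearMap.proj_apply, smul_eq_mul]
      rfl
    have h1 : ∀ j, Y ⟨g j, hgS j⟩ = 0 := by
      intro j
      rw [hY]
      have h2 := congrFun hy j
      rw [hA, Pi.zero_apply] at h2
      rw [← h2]
      exact Finset.sum_congr rfl fun i _ => mul_comm _ _
    have h2 : ∀ (s : L) (hs : s ∈ S), Y ⟨s, hs⟩ = 0 := by
      intro s hs
      induction hs using Submodule.span_induction with
      | mem x hx =>
        obtain ⟨j, rfl⟩ := hx
        exact h1 j
      | zero => exact map_zero Y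
      | add x y hx hy h1 h2 =>
        have e : (⟨x + y, Submodule.add_mem _ hx hy⟩ : S) = ⟨x, hx⟩ + ⟨y, hy⟩ := rfl
        rw [e, map_add, h1, h2, add_zero]
      | smul c x hx h1 =>
        have e : (⟨c • x, Submodule.smul_mem _ c hx⟩ : S) = c • ⟨x, hx⟩ := rfl
        rw [e, map_smul, h1, smul_zero]
    funext i
    have h3 := h2 (b i) (b i).2
    rw [hY, Finset.sum_eq_single i] at h3
    · have e : (⟨(b i : L), (b i).2⟩ : S) = b i := rfl
      rw [e, Module.Basis.repr_self, Finsupp.single_eq_same, mul_one] at h3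
      exact h3
    · intro i' _ hi'
      have e : (⟨(b i : L), (b i).2⟩ : S) = b i := rfl
      rw [e, Module.Basis.repr_self, Finsupp.single_eq_of_ne hi', mul_zero]
    · intro h
      exact absurd (Finset.mem_univ _) h
  · intro f
    have h1 : fv g f = ∑ j, algebraMap ℂ L (f (Pi.single j 1)) *
        ∑ i, algebraMap ℂ L (a j i) * φ i := by
      unfold fv
      exact Finset.sum_congr rfl fun j _ => by rw [← hga]
    rw [h1]
    unfold fv
    simp only [Finset.mul_sum]
    rw [Finset.sum_comm]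
    refine Finset.sum_congr rfl fun i _ => ?_
    rw [LinearMap.comp_apply]
    have h2 : f (A (Pi.single i 1)) = ∑ j, f (Pi.single j 1) * a j i := by
      rw [Pool.Agent.TH152.HY.form_sum f (A (Pi.single i 1))]
      exact Finset.sum_congr rfl fun j _ => by rw [hAs]
    rw [h2, map_sum, Finset.sum_mul]
    exact Finset.sum_congr rfl fun j _ => by rw [map_mul]; ring

/-- the restricted forms are in subgeneral position -/
theorem subg_restrict {N : ℕ} (hN : X.Subgeneral N) {l : ℕ}
    {A : (Fin (l + 1) → ℂ) →ₗ[ℂ] (Fin (n + 1) → ℂ)} (hA : Function.Injective A) :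
    Subg N (fun i => X.fm i ∘ₗ A) := by
  intro F hF
  refine span_top_of fun x hx => ?_
  apply hA
  rw [map_zero]
  refine hN F hF _ fun i hi => ?_
  rw [← fm_apply]
  exact hx i hi

theorem Cover.Pt.ne_zero {X : Cover n q r} {L : Type} [Field L] [Algebra ℂ L]
    {g : Fin (n + 1) → L} {y : Fin r → L} (h : X.Pt g y) (k : Fin r) : y k ≠ 0 := by
  intro h0
  have h1 := h.eq k
  rw [h0, zero_pow (X.m_pos k).ne'] at h1
  exact (Finset.prod_ne_zero_iff.2 fun i _ => pow_ne_zero _ (h.off i)) h1.symm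

/-- the numerical consequences of the condition -/
theorem numbers {N : ℕ} {p : Fin q → ℕ} {Q : ℕ} (hnN : n ≤ N)
    (hb : ∀ l, 1 ≤ l → l ≤ n → (2 * N + 1 - l) * (2 * Q + l * ∑ i, p i) < 2 * Q * q) {l : ℕ}
    (hl : 1 ≤ l) (hln : l ≤ n) : 2 * N + 1 < q + l ∧ ∀ {Dn : ℕ} {c : Fin q → ℕ}, 0 < Dn →
      (l + 1) * (q * Dn) ≤ (2 * N + 1 - l) * ∑ i, c i →
      Q * Dn * (l + 1) + Dn * tn (l + 1) * ∑ i, p i < Q * ∑ i, c i := by
  have h1 := hb l hl hln
  obtain ⟨K, hK⟩ : ∃ K, K = 2 * N + 1 - l := ⟨_, rfl⟩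
  rw [← hK] at h1
  have hK0 : 0 < K := by omega
  have ht : 2 * tn (l + 1) = l * (l + 1) := by
    unfold tn
    exact Pool.Agent.TH152.HY.tri l
  refine ⟨?_, fun {Dn c} hDn hc => ?_⟩
  · have h2 : K * (2 * Q) < 2 * Q * q :=
      lt_of_le_of_lt (Nat.mul_le_mul_left _ (Nat.le_add_right _ _)) h1
    have h3 : K < q := by
      by_contra hcon
      push Not at hcon
      have h4 := Nat.mul_le_mul_left (2 * Q) hcon
      rw [mul_comm K] at h2
      omega
    omega
  · rw [← hK] at hc
    have h2 : 0 < Dn * (l + 1) := by positivity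
    have h3 := Nat.mul_lt_mul_of_pos_left h1 h2
    have h4 := Nat.mul_le_mul_left (2 * Q) hc
    have h5 : (2 * K) * (Q * Dn * (l + 1) + Dn * tn (l + 1) * ∑ i, p i) =
        Dn * (l + 1) * (K * (2 * Q + l * ∑ i, p i)) := by
      calc (2 * K) * (Q * Dn * (l + 1) + Dn * tn (l + 1) * ∑ i, p i)
          = K * Dn * (2 * Q * (l + 1) + (2 * tn (l + 1)) * ∑ i, p i) := by ring
        _ = _ := by rw [ht]; ring
    have h6 : (2 * K) * (Q * Dn * (l + 1) + Dn * tn (l + 1) * ∑ i, p i) <
        (2 * K) * (Q * ∑ i, c i) := by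
      calc (2 * K) * (Q * Dn * (l + 1) + Dn * tn (l + 1) * ∑ i, p i)
          = Dn * (l + 1) * (K * (2 * Q + l * ∑ i, p i)) := h5
        _ < Dn * (l + 1) * (2 * Q * q) := h3
        _ = 2 * Q * ((l + 1) * (q * Dn)) := by ring
        _ ≤ 2 * Q * (K * ∑ i, c i) := h4
        _ = _ := by ring
    exact lt_of_mul_lt_mul_left h6 (Nat.zero_le _)

/-- the possible multiplicities at a place -/
theorem mult_of_place {L : Type} [Field L] [Algebra ℂ L] {g : Fin (n + 1) → L} {y : Fin r → L}
    (hpt : X.Pt g y) (P : Place ℂ L)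
    (hint : ∀ i ∈ X.bd, ∀ j, P.Reg (g j / X.lin i g)) {v : Fin q → ℕ} {μ : ℤ}
    (hord : ∀ i, P.ord (X.lin i g) = μ + v i) (h0 : ∃ i, v i = 0)
    (hcom : ∃ x : Fin (n + 1) → ℂ, x ≠ 0 ∧ ∀ i, v i ≠ 0 → ∑ j, X.c i j * x j = 0) :
    X.Mult v := by
  refine ⟨hcom, fun i hi => ?_, fun k => ?_⟩
  · by_contra hvi
    obtain ⟨i', hi'⟩ := h0
    have h1 : ∀ j, Ge P (μ + 1) (g j) := by
      intro j
      by_cases hgj : g j = 0
      · exact Or.inl hgj
      · right
        have h2 := (hint i hi j).resolve_left (div_ne_zero hgj (hpt.off i))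
        rw [P.ord_div hgj (hpt.off i), hord] at h2
        have h3 : (1 : ℤ) ≤ v i := by exact_mod_cast Nat.one_le_iff_ne_zero.2 hvi
        linarith
    have h2 : Ge P (μ + 1) (X.lin i' g) := by
      unfold Cover.lin
      refine Ge.sum _ _ fun j _ => ?_
      have := (Ge.const (P := P) (X.c i' j)).mul (h1 j)
      rwa [zero_add] at this
    rcases h2 with h2 | h2
    · exact hpt.off i' h2
    · rw [hord, hi'] at h2
      push_cast at h2
      linarith
  · have h1 := congrArg P.ord (hpt.eq k)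
    rw [P.ord_pow, PK.ord_prod_univ P _ _ fun i _ => pow_ne_zero _ (hpt.off i)] at h1
    have h2 : ∑ i, P.ord (X.lin i g ^ X.e k i) =
        μ * ((∑ i, X.e k i : ℕ) : ℤ) + ((∑ i, X.e k i * v i : ℕ) : ℤ) := by
      push_cast
      rw [Finset.mul_sum, ← Finset.sum_add_distrib]
      refine Finset.sum_congr rfl fun i _ => ?_
      rw [P.ord_pow, hord]
      ring
    rw [h2] at h1
    have h3 : (X.m k : ℤ) ∣ ((∑ i, X.e k i * v i : ℕ) : ℤ) := by
      have h4 : ((∑ i, X.e k i * v i : ℕ) : ℤ) = X.m k * P.ord (y k) -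
          μ * ((∑ i, X.e k i : ℕ) : ℤ) := by linarith
      rw [h4]
      exact dvd_sub (dvd_mul_right _ _) (Dvd.dvd.mul_left (Int.natCast_dvd_natCast.2 (X.bal k)) _)
    exact Int.natCast_dvd_natCast.1 h3

/-- the coordinates are linear combinations of the linear forms -/
theorem coord_comb {N : ℕ} (hN : X.Subgeneral N) (hq : N + 1 ≤ q) : ∃ b : Fin (n + 1) → Fin q → ℂ,
    ∀ (L : Type) [Field L] [Algebra ℂ L] (g : Fin (n + 1) → L) (j : Fin (n + 1)),
      g j = ∑ i, algebraMap ℂ L (b j i) * X.lin i g := by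
  have h1 : Submodule.span ℂ (Set.range X.fm) = ⊤ := by
    obtain ⟨F, hF⟩ : ∃ F : Finset (Fin q), F.card = N + 1 := by
      obtain ⟨F, -, hF⟩ := Finset.exists_subset_card_eq (s := (Finset.univ : Finset (Fin q)))
        (n := N + 1) (by rw [Finset.card_univ, Fintype.card_fin]; exact hq)
      exact ⟨F, hF⟩
    have h2 := subg_restrict X hN (A := LinearMap.id) Function.injective_id F hF
    simp only [LinearMap.comp_id] at h2
    rw [eq_top_iff, ← h2]
    exact Submodule.span_mono (Set.image_subset_range _ _)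
  have h2 : ∀ j, ∃ b : Fin q → ℂ, ∑ i, b i • X.fm i = (LinearMap.proj j : Form n) := by
    intro j
    have h3 : (LinearMap.proj j : Form n) ∈ Submodule.span ℂ (Set.range X.fm) := by
      rw [h1]
      trivial
    exact (Submodule.mem_span_range_iff_exists_fun ℂ).1 h3
  choose b hb using h2
  refine ⟨b, fun L _ _ g j => ?_⟩
  rw [← fv_proj g j, ← hb, fv_sum]
  exact Finset.sum_congr rfl fun i _ => by rw [lin_eq]

/-- **Log general type.** -/
theorem logGeneralType (hX : X.Big) {L : Type} [Field L] [Algebra ℂ L] {g : Fin (n + 1) → L}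
    {y : Fin r → L} (hpt : X.Pt g y) (i0 : Fin q)
    (halg : Algebra.IsAlgebraic
      (IntermediateField.adjoin ℂ (Set.range fun j => g j / X.lin i0 g)) L) {w : ℕ}
    (hw : Algebra.trdeg ℂ L = w) (hw1 : 1 ≤ w) {Bd : Place ℂ L → Prop}
    (hBd : ∀ P, ¬ Bd P → ∀ i ∈ X.bd, ∀ j, P.Reg (g j / X.lin i g)) :
    LogGeneralType ℂ L w Bd := by
  classical
  obtain ⟨N, p, Q, hnN, hN, hQ, hp, hb⟩ := hX
  have hg : g ≠ 0 := by
    intro h0
    apply hpt.off i0
    unfold Cover.lin
    exact Finset.sum_eq_zero fun j _ => by rw [h0, Pi.zero_apply, mul_zero]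
  obtain ⟨l, φ, A, hln, hφ, hA, hfv⟩ := reduce hg
  have hUv : ∀ i, fv φ (X.fm i ∘ₗ A) = X.lin i g := fun i => by rw [lin_eq, hfv]
  -- the dimension of the span
  have hl : 1 ≤ l := by
    by_contra hl
    have hl0 : l = 0 := by omega
    subst hl0
    have h1 : ∀ j, g j / X.lin i0 g ∈ (⊥ : IntermediateField ℂ L) := by
      intro j
      have h2 : ∀ f : Form 0, fv φ f = algebraMap ℂ L (f (Pi.single 0 1)) * φ 0 := by
        intro f
        unfold fv
        simp
      rw [← hUv, ← fv_proj g j, hfv, h2, h2]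
      have h3 : φ 0 ≠ 0 := hφ.ne_zero 0
      rw [mul_div_mul_right _ _ h3, ← map_div₀]
      exact IntermediateField.algebraMap_mem _ _
    have h2 : IntermediateField.adjoin ℂ (Set.range fun j => g j / X.lin i0 g) ≤ ⊥ := by
      rw [IntermediateField.adjoin_le_iff]
      rintro _ ⟨j, rfl⟩
      exact h1 j
    have h3 : Algebra.IsAlgebraic ℂ L := by
      refine ⟨fun x => ?_⟩
      have h4 := alg_mono h2 (halg.isAlgebraic x)
      have h5 : Algebra.IsAlgebraic ℂ (⊥ : IntermediateField ℂ L) := by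
        constructor
        intro x
        obtain ⟨c, hc⟩ := IntermediateField.mem_bot.1 x.2
        have : x = algebraMap ℂ _ c := Subtype.ext hc.symm
        rw [this]
        exact isAlgebraic_algebraMap c
      exact h4.restrictScalars ℂ
    have h4 : Algebra.trdeg ℂ L = 0 := trdeg_eq_zero_iff.2 h3
    rw [hw] at h4
    have : w = 0 := by exact_mod_cast h4
    omega
  obtain ⟨hq, hnum⟩ := numbers hnN hb hl hln
  have hsub := subg_restrict X hN hA
  obtain ⟨Dn, c, hDn, hc, hsum⟩ := nochka hsub (hln.trans hnN) (by omega)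
  have hspan : Submodule.span ℂ (Set.range fun i => X.fm i ∘ₗ A) = ⊤ := by
    obtain ⟨F, -, hF⟩ := Finset.exists_subset_card_eq (s := (Finset.univ : Finset (Fin q)))
      (n := N + 1) (by rw [Finset.card_univ, Fintype.card_fin]; omega)
    rw [eq_top_iff, ← hsub F hF]
    exact Submodule.span_mono (Set.image_subset_range _ _)
  obtain ⟨b, hb'⟩ := coord_comb X hN (by omega)
  refine lgt_core hl hφ (fun i => by rw [hUv]; exact hpt.off i) hDn hc (exists_bases hspan) p hQ
    (hnum hDn hsum) i0 ?_ hw ?_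
  · refine ⟨fun x => alg_mono ?_ (halg.isAlgebraic x)⟩
    rw [IntermediateField.adjoin_le_iff]
    rintro _ ⟨j, rfl⟩
    change g j / X.lin i0 g ∈ IntermediateField.adjoin ℂ
      (Set.range fun i => fv φ (X.fm i ∘ₗ A) / fv φ (X.fm i0 ∘ₗ A))
    rw [hb' L g j, Finset.sum_div]
    refine sum_mem fun i _ => ?_
    rw [mul_div_assoc]
    exact mul_mem (IntermediateField.algebraMap_mem _ _)
      (IntermediateField.subset_adjoin _ _ ⟨i, by simp only [hUv]⟩)
  · intro P hP v μ hv hord hns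
    simp only [hUv] at hord
    have h0 : ∃ i, v i = 0 := by
      by_contra hcon
      push Not at hcon
      apply hns
      have h1 : {i | v i ≠ 0} = Set.univ := Set.eq_univ_of_forall hcon
      rw [h1, Set.image_univ]
      exact hspan
    refine hp v (mult_of_place X hpt P (hBd P hP) hord h0 ?_) hv
    obtain ⟨x, hx, hxi⟩ := exists_zero hns
    refine ⟨A x, fun h => hx (hA (by rw [h, map_zero])), fun i hi => ?_⟩
    rw [← fm_apply]
    exact hxi i hi

/-- **Specialization of the points of a cover.** -/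
theorem spec_pt {L : Type} [Field L] [Algebra ℂ L] {g : Fin (n + 1) → L} {y : Fin r → L}
    (hpt : X.Pt g y) (i0 : Fin q) (halg : Algebra.IsAlgebraic
      (IntermediateField.adjoin ℂ (Set.range fun j => g j / X.lin i0 g)) L)
    {σ : Type} [Finite σ] {x : σ → L} (hx : IntermediateField.adjoin ℂ (Set.range x) = ⊤) :
    ∃ H : MvPolynomial σ ℂ, MvPolynomial.aeval x H ≠ 0 ∧
      ∀ (E : Type) [Field E] [Algebra ℂ E] (z : σ → E),
        (∀ G : MvPolynomial σ ℂ, MvPolynomial.aeval x G = 0 → MvPolynomial.aeval z G = 0) →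
        MvPolynomial.aeval z H ≠ 0 →
        ∃ (S : Sp ℂ L E) (g' : Fin (n + 1) → E) (y' : Fin r → E), (∀ m, S.T (x m) (z m)) ∧
          X.Pt (L := E) g' y' ∧
          (∀ i j, S.T (g j / X.lin i g) (g' j / X.lin i g')) ∧
          ∀ m, IsAlgebraic
            (IntermediateField.adjoin ℂ (Set.range fun j => g' j / X.lin i0 g')) (z m) := by
  classical
  have h1 := fun m => alg_spec0 (halg.isAlgebraic (x m))
  choose Θ hΘ hspec using h1
  let Θ' : Set L := (⋃ m, Θ m) ∪ (Set.range g ∪ (Set.range y ∪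
    Set.range fun i : Fin q => (X.lin i g)⁻¹))
  have hΘ' : Θ'.Finite := (Set.finite_iUnion hΘ).union
    ((Set.finite_range _).union ((Set.finite_range _).union (Set.finite_range _)))
  obtain ⟨H, hH, hH2⟩ := spread0 hx hΘ'
  refine ⟨H, hH, fun E _ _ z hz hzH => ?_⟩
  obtain ⟨S, hSx, hSΘ⟩ := hH2 E z hz hzH
  have hSg : ∀ j, ∃ u, S.T (g j) u := fun i => hSΘ _ (Or.inr (Or.inl ⟨i, rfl⟩))
  have hSy : ∀ k, ∃ u, S.T (y k) u := fun k => hSΘ _ (Or.inr (Or.inr (Or.inl ⟨k, rfl⟩)))
  have hSi : ∀ i, ∃ u, S.T (X.lin i g)⁻¹ u := fun i =>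
    hSΘ _ (Or.inr (Or.inr (Or.inr ⟨i, rfl⟩)))
  choose g' hg' using hSg
  choose y' hy' using hSy
  have hlin : ∀ i, S.T (X.lin i g) (X.lin i g') := fun i =>
    S.sum _ fun j _ => S.mul (S.const _) (hg' j)
  have hrat : ∀ i j, S.T (g j / X.lin i g) (g' j / X.lin i g') := by
    intro i j
    rw [div_eq_mul_inv, div_eq_mul_inv]
    exact S.mul (hg' j) (S.inv (hlin i) (hSi i) (hpt.off i))
  refine ⟨S, g', y', hSx, ⟨fun k => ?_, fun i => ?_⟩, hrat, fun m => ?_⟩
  · refine S.ext (x := y k ^ X.m k) (S.pow (hy' k) _) ?_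
    rw [hpt.eq k]
    exact S.prod _ fun i _ => S.pow (hlin i) _
  · exact S.ne_zero (hlin i) (hSi i) (hpt.off i)
  · exact hspec m E S (fun ϑ hϑ => hSΘ _ (Or.inl (Set.mem_iUnion.2 ⟨m, hϑ⟩))) _
      (fun j => hrat i0 j) _ (hSx m)

end Pool.Agent.Helper1K9.PN
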