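import Pool.Agent.Helper1K9.PN.Noc
import Pool.Agent.TH152.HY.Core
import Pool.Agent.W602.GT.Core

/-!
Curves near infinity which meet hyperplanes in subgeneral position with high multiplicities (in a
weighted sense) are meromorphic at infinity.
-/

set_option autoImplicit false

namespace Pool.Agent.Helper1K9.PN

open Filter Metric Real Set Topology Pool.Agent.H159R3.NV Pool.Agent.W602.NC Pool.Agent.W602.TL
  Pool.Agent.W603.BP Pool.Agent.W601.PH Pool.Agent.W602.Cov Pool.Agent.TH152.AC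
  Pool.Agent.TH152.HY
open Pool.Agent.W602.GT (tn)

/-- **The second main theorem.** -/
theorem nondeg {d p : ℕ} {ℓ : Fin (p + 1) → Form d} (hℓ : ∀ i, ℓ i ≠ 0)
    {Dn : ℕ} {c : Fin (p + 1) → ℕ} (hDn : 0 < Dn)
    (hc : ∀ F : Finset (Fin (p + 1)), NS ℓ F → ∑ i ∈ F, c i ≤ Dn * rk ℓ F)
    (hneB : Nonempty (Bases ℓ)) (pw : Fin (p + 1) → ℕ) {Q : ℕ} (hQ : 0 < Q)
    (hbig : Q * Dn * (d + 1) + Dn * tn (d + 1) * ∑ i, pw i < Q * ∑ i, c i)
    {r0 : ℝ} (hr0 : 0 < r0)
    {x : ℂ → Fin (d + 1) → ℂ} (hx : ∀ z ∈ Ext r0, ∀ k, AnalyticAt ℂ (fun w => x w k) z)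
    (hx0 : ∀ z ∈ Ext r0, x z ≠ 0)
    (hnd : ∀ φ : Form d, (∀ z ∈ Ext r0, φ (x z) = 0) → φ = 0)
    (hmult : ∀ z ∈ Ext r0, ∀ a : Fin (p + 1) → ℕ,
      (∀ i, analyticOrderAt (fun w => ℓ i (x w)) z = a i) → a ≠ 0 → Q ≤ ∑ i, pw i * a i)
    (j : Fin (p + 1)) :
    ∃ R : ℂ → ℂ, MeromorphicAt (fun w => R w⁻¹) 0 ∧ ∃ R0 : ℝ, ∀ z, R0 < ‖z‖ →
      ℓ j (x z) = R z * ℓ 0 (x z) := by
  classical
  obtain ⟨C, hC0, hC⟩ := real_orders' hc hneB
  obtain ⟨t, ht⟩ : ∃ t : ℕ, ∑ k : Fin (d + 1), (k : ℕ) = t := ⟨_, rfl⟩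
  have ht' : tn (d + 1) = t := ht
  rw [ht'] at hbig
  obtain ⟨κ, hκ⟩ : ∃ κ, Q * ∑ i, c i = Q * Dn * (d + 1) + Dn * t * ∑ i, pw i + (κ + 1) :=
    ⟨Q * ∑ i, c i - (Q * Dn * (d + 1) + Dn * t * ∑ i, pw i) - 1, by omega⟩
  set U : Fin (p + 1) → ℂ → ℂ := fun i z => ℓ i (x z) with hU
  have hUan : ∀ i, AnalyticOnNhd ℂ (U i) (Ext r0) := fun i z hz => form_an (ℓ i) (hx z hz)
  have hne : ∀ i, ∃ z ∈ Ext r0, U i z ≠ 0 := by
    intro i
    by_contra hcon
    push Not at hcon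
    exact hℓ i (hnd (ℓ i) hcon)
  have hWan : AnalyticOnNhd ℂ (Wf x) (Ext r0) := fun z hz => dt_an (hx z hz)
  obtain ⟨z1, hz1, hz1W⟩ := Wf_ne hr0 hx hnd
  set q : ℕ := Q * Dn with hq
  have hq0 : q ≠ 0 := (Nat.mul_pos hQ hDn).ne'
  -- the determinants
  let dd : Bases ℓ → ℂ := fun B =>
    (Matrix.of fun b k : Fin (d + 1) => ℓ (B.1 b) (Pi.single k 1)).det
  have hdd : ∀ B, dd B ≠ 0 := fun B => det_ne (fun b => ℓ (B.1 b)) B.2
  have hlin : ∀ (B : Bases ℓ), ∀ z ∈ Ext r0, dt (fun b w => ℓ (B.1 b) (x w)) z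
      = dd B * Wf x z := fun B z hz => wr_lin (fun b => ℓ (B.1 b)) (hx z hz)
  set F : ℝ := ((Nat.factorial (d + 1) : ℝ)) ^ (d + 2) with hF
  have hF0 : 0 ≤ F := by positivity
  set CX : ℝ := 1 + (∑ B, ‖dd B‖⁻¹) * F with hCX
  have hsum0 : 0 ≤ ∑ B, ‖dd B‖⁻¹ := Finset.sum_nonneg fun B _ => by positivity
  have hCX1 : 1 ≤ CX := by
    have : 0 ≤ (∑ B, ‖dd B‖⁻¹) * F := mul_nonneg hsum0 hF0
    linarith
  have hCXpos : 0 < CX := by linarith
  have hC1 : 1 ≤ Real.exp (Q * C) * CX ^ q :=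
    one_le_mul_of_one_le_of_one_le (Real.one_le_exp (by positivity)) (one_le_pow₀ hCX1)
  -- the auxiliary function
  set V : ℂ → ℂ := fun z => ∏ i, U i z ^ (Dn * t * pw i) with hV
  have hVan : AnalyticOnNhd ℂ V (Ext r0) := fun z hz =>
    Finset.analyticAt_fun_prod _ fun i _ => (hUan i z hz).fun_pow _
  have hPan : AnalyticOnNhd ℂ (fun z => Wf x z ^ q * V z) (Ext r0) := fun z hz =>
    ((hWan z hz).fun_pow q).fun_mul (hVan z hz)
  have hPne : ∃ z ∈ Ext r0, Wf x z ^ q * V z ≠ 0 := by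
    obtain ⟨hG1, hG2⟩ := prod_ne hr0 (Finset.univ : Finset (Option (Fin (p + 1))))
      (fun o => o.elim (Wf x) fun i => U i) (by
        rintro (_ | i) _
        · exact hWan
        · exact hUan i) (by
        rintro (_ | i) _
        · exact ⟨z1, hz1, hz1W⟩
        · exact hne i)
    obtain ⟨z, hz, hzne⟩ := hG2
    refine ⟨z, hz, ?_⟩
    have h1 := Finset.prod_ne_zero_iff.1 hzne
    refine mul_ne_zero (pow_ne_zero _ (h1 none (Finset.mem_univ _))) ?_
    exact Finset.prod_ne_zero_iff.2 fun i _ => pow_ne_zero _ (h1 (some i) (Finset.mem_univ _))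
  refine abstract_ext hr0 (fun i => Q * c i) (κ := κ + 1) (Nn := (d + 1) * (d + 1) * q)
    (Nat.succ_pos κ) hC1 hUan hne (P := fun z => Wf x z ^ q * V z) hPan hPne ?_ ?_ j
  · -- orders
    intro z hz a ha
    by_cases ha0 : a = 0
    · subst ha0
      simp
    have e1 : (fun z => Wf x z ^ q * V z) = Wf x ^ q * V := rfl
    have hVo : analyticOrderAt V z = ((∑ i, Dn * t * pw i * a i : ℕ) : ℕ∞) := by
      rw [hV, ord_prod Finset.univ _ _ fun i _ => (hUan i z hz).fun_pow _]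
      push_cast
      refine Finset.sum_congr rfl fun i _ => ?_
      have e : (fun z => U i z ^ (Dn * t * pw i)) = U i ^ (Dn * t * pw i) := rfl
      rw [e, analyticOrderAt_pow (hUan i z hz), nsmul_eq_mul, ha i]
      push_cast
      rfl
    rw [e1, analyticOrderAt_mul ((hWan z hz).pow q) (hVan z hz), analyticOrderAt_pow (hWan z hz),
      hVo]
    have hv : Submodule.span ℂ (ℓ '' {i | a i ≠ 0}) ≠ ⊤ := by
      intro htop
      apply hx0 z hz
      have h1 : ∀ φ : Form d, φ (x z) = 0 := by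
        intro φ
        have h2 : φ ∈ Submodule.span ℂ (ℓ '' {i | a i ≠ 0}) := by rw [htop]; trivial
        induction h2 using Submodule.span_induction with
        | mem y hy =>
          obtain ⟨i, hi, rfl⟩ := hy
          by_contra h3
          have h4 := (hUan i z hz).analyticOrderAt_eq_zero.mpr h3
          have h5 := ha i
          rw [h4] at h5
          exact hi (by exact_mod_cast h5.symm)
        | zero => rfl
        | add a b _ _ h1 h2 => rw [LinearMap.add_apply, h1, h2, add_zero]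
        | smul c a _ h1 => rw [LinearMap.smul_apply, h1, smul_zero]
      funext k
      exact h1 (LinearMap.proj k)
    obtain ⟨B', hB'⟩ := orders' hc hneB a hv
    have h2 : ((∑ b, a (B'.1 b) : ℕ) : ℕ∞) ≤ analyticOrderAt (Wf x) z + (t : ℕ∞) := by
      have h3 := dt_order (f := fun b w => ℓ (B'.1 b) (x w)) (fun b => hUan (B'.1 b) z hz)
        (fun b => a (B'.1 b)) (fun b => (ha (B'.1 b)).ge)
      have h4 : analyticOrderAt (dt fun b w => ℓ (B'.1 b) (x w)) z
          = analyticOrderAt (Wf x) z := by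
        have h5 : (dt fun b w => ℓ (B'.1 b) (x w)) =ᶠ[𝓝 z] (fun _ => dd B') * Wf x := by
          filter_upwards [(Ext_open r0).mem_nhds hz] with y hy
          exact hlin B' y hy
        rw [analyticOrderAt_congr h5, analyticOrderAt_mul analyticAt_const (hWan z hz)]
        have h6 : analyticOrderAt (fun _ : ℂ => dd B') z = 0 := by
          rw [analyticOrderAt_eq_zero]
          right
          exact hdd B'
        rw [h6, zero_add]
      rw [h4, ht] at h3
      exact h3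
    cases hω : analyticOrderAt (Wf x) z with
    | top =>
      have : q • (⊤ : ℕ∞) = ⊤ := by
        rw [nsmul_eq_mul]
        exact ENat.mul_top (by exact_mod_cast hq0)
      rw [this, top_add]
      exact le_top
    | coe ω =>
      rw [hω] at h2
      have h3 : ∑ b, a (B'.1 b) ≤ ω + t := by exact_mod_cast h2
      have h4 := hmult z hz a ha ha0
      have h5 : ∑ i, Q * c i * a i ≤ q * ω + ∑ i, Dn * t * pw i * a i := by
        have e2 : ∑ i, Q * c i * a i = Q * ∑ i, c i * a i := by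
          rw [Finset.mul_sum]
          exact Finset.sum_congr rfl fun i _ => mul_assoc _ _ _
        have e3 : ∑ i, Dn * t * pw i * a i = Dn * t * ∑ i, pw i * a i := by
          rw [Finset.mul_sum]
          exact Finset.sum_congr rfl fun i _ => mul_assoc _ _ _
        rw [e2, e3, hq]
        calc Q * ∑ i, c i * a i ≤ Q * (Dn * ∑ b, a (B'.1 b)) := Nat.mul_le_mul_left _ hB'
          _ ≤ Q * (Dn * (ω + t)) := Nat.mul_le_mul_left _ (Nat.mul_le_mul_left _ h3)
          _ = Q * Dn * ω + Dn * t * Q := by ring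
          _ ≤ _ := by gcongr
      rw [nsmul_eq_mul]
      exact_mod_cast h5
  · -- the pointwise bound
    intro z ε B hε hε1 hB hball hcalm
    have hzm : z ∈ closedBall z ε := mem_closedBall_self hε.le
    have hzE : z ∈ Ext r0 := hball hzm
    have hBε : 1 ≤ B / ε := by
      rw [le_div_iff₀ hε]
      linarith
    have hBε0 : 0 < B / ε := by linarith
    have hUz : ∀ i, 0 < ‖U i z‖ := fun i => norm_pos_iff.mpr (hcalm.1 i z hzm)
    have hprodpos : 0 < ∏ i, ‖U i z‖ ^ (Q * c i) :=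
      Finset.prod_pos fun i _ => pow_pos (hUz i) _
    by_cases hW0 : Wf x z = 0
    · rw [hW0, zero_pow hq0, zero_mul, norm_zero, zero_mul]
      positivity
    set σ : ℝ := sup U z with hσdef
    have hσ : 0 < σ := (hUz 0).trans_le (le_sup U z 0)
    obtain ⟨B', hB'⟩ := hC (x z) σ (fun i => hcalm.1 i z hzm) (fun i => le_sup U z i) (by
      obtain ⟨i, hi⟩ := sup_attained U z
      exact ⟨i, hi.symm⟩)
    have hX : 0 < ‖Wf x z‖ := norm_pos_iff.mpr hW0
    have h1 := dt_upper (fun b w => ℓ (B'.1 b) (x w)) hB hε hε1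
      (fun b w hw => hUan (B'.1 b) w (hball hw)) (fun b w hw => hcalm.1 (B'.1 b) w hw)
      (fun i j w hw => hcalm.2 (B'.1 i) (B'.1 j) w hw)
    rw [hlin B' z hzE, norm_mul] at h1
    have hd' : 0 < ‖dd B'‖ := norm_pos_iff.mpr (hdd B')
    have h2 : ‖Wf x z‖ ≤ CX * (B / ε) ^ ((d + 1) * (d + 1)) * ∏ b, ‖U (B'.1 b) z‖ := by
      have h3 : ‖Wf x z‖ ≤ ‖dd B'‖⁻¹ * (F * (B / ε) ^ ((d + 1) * (d + 1)) *
          ∏ b, ‖U (B'.1 b) z‖) := by
        rw [inv_mul_eq_div, le_div_iff₀ hd', mul_comm]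
        exact h1
      refine h3.trans ?_
      have h4 : ‖dd B'‖⁻¹ ≤ ∑ B, ‖dd B‖⁻¹ :=
        Finset.single_le_sum (f := fun B => ‖dd B‖⁻¹) (fun B _ => by positivity)
          (Finset.mem_univ B')
      have h5 : ‖dd B'‖⁻¹ * F ≤ CX := by
        have := mul_le_mul_of_nonneg_right h4 hF0
        linarith
      have h6 : 0 ≤ (B / ε) ^ ((d + 1) * (d + 1)) * ∏ b, ‖U (B'.1 b) z‖ := by positivity
      calc _ = (‖dd B'‖⁻¹ * F) * ((B / ε) ^ ((d + 1) * (d + 1)) * ∏ b, ‖U (B'.1 b) z‖) := by ring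
        _ ≤ CX * ((B / ε) ^ ((d + 1) * (d + 1)) * ∏ b, ‖U (B'.1 b) z‖) :=
          mul_le_mul_of_nonneg_right h5 h6
        _ = _ := by ring
    -- logarithms
    set lam : Fin (p + 1) → ℝ := fun i => Real.log (σ / ‖U i z‖) with hlam
    have hlam0 : ∀ i, 0 ≤ lam i := fun i => Real.log_nonneg (by
      rw [le_div_iff₀ (hUz i), one_mul]
      exact le_sup U z i)
    have hlogU : ∀ i, Real.log ‖U i z‖ = Real.log σ - lam i := fun i => by
      simp only [hlam]
      rw [Real.log_div hσ.ne' (hUz i).ne']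
      ring
    set LE : ℝ := Real.log (B / ε) with hLE
    have h3 : Real.log ‖Wf x z‖ ≤ Real.log CX + ((d + 1) * (d + 1) : ℕ) * LE +
        ((d + 1 : ℕ) * Real.log σ - ∑ b, lam (B'.1 b)) := by
      have h4 := Real.log_le_log hX h2
      have h5 : (B / ε) ^ ((d + 1) * (d + 1)) ≠ 0 := pow_ne_zero _ hBε0.ne'
      have h6 : ∏ b, ‖U (B'.1 b) z‖ ≠ 0 := Finset.prod_ne_zero_iff.mpr fun b _ => (hUz _).ne'
      rw [Real.log_mul (mul_ne_zero hCXpos.ne' h5) h6, Real.log_mul hCXpos.ne' h5, Real.log_pow,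
        Real.log_prod (fun b _ => (hUz (B'.1 b)).ne')] at h4
      refine h4.trans (le_of_eq ?_)
      congr 1
      rw [Finset.sum_congr rfl fun b _ => hlogU (B'.1 b), Finset.sum_sub_distrib, Finset.sum_const,
        Finset.card_univ, Fintype.card_fin, nsmul_eq_mul]
    have h4 : ∑ i, (c i : ℝ) * lam i ≤ Dn * ∑ b, lam (B'.1 b) + C := hB'
    -- the exponents
    have hsum : ∑ i, ((Q * c i : ℕ) : ℝ) * Real.log ‖U i z‖
        = (Q : ℝ) * ((∑ i, (c i : ℝ)) * Real.log σ) - Q * ∑ i, (c i : ℝ) * lam i := by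
      rw [Finset.sum_mul, Finset.mul_sum, Finset.mul_sum, ← Finset.sum_sub_distrib]
      refine Finset.sum_congr rfl fun i _ => ?_
      rw [hlogU]
      push_cast
      ring
    have hVlog : ∑ i, ((Dn * t * pw i : ℕ) : ℝ) * Real.log ‖U i z‖ ≤
        (Dn : ℝ) * t * ((∑ i, (pw i : ℝ)) * Real.log σ) := by
      rw [Finset.sum_mul, Finset.mul_sum]
      refine Finset.sum_le_sum fun i _ => ?_
      rw [hlogU]
      push_cast
      have := hlam0 i
      have h5 : 0 ≤ (Dn : ℝ) * t * pw i * lam i := by positivity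
      nlinarith
    have hκ' : (Q : ℝ) * ∑ i, (c i : ℝ) = Q * Dn * (d + 1) + Dn * t * ∑ i, (pw i : ℝ) +
        (κ + 1) := by exact_mod_cast hκ
    have hmain : (q : ℝ) * Real.log ‖Wf x z‖ +
        ∑ i, ((Dn * t * pw i : ℕ) : ℝ) * Real.log ‖U i z‖ + ((κ + 1 : ℕ) : ℝ) * Real.log σ ≤
        (Q * C + q * Real.log CX) + ((d + 1) * (d + 1) * q : ℕ) * LE +
          ∑ i, ((Q * c i : ℕ) : ℝ) * Real.log ‖U i z‖ := by
      rw [hsum]
      have hq' : (q : ℝ) = Q * Dn := by rw [hq]; push_cast; ring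
      have h5 := mul_le_mul_of_nonneg_left h3 (Nat.cast_nonneg q : (0 : ℝ) ≤ q)
      have h6 := mul_le_mul_of_nonneg_left h4 (Nat.cast_nonneg Q : (0 : ℝ) ≤ Q)
      have h9 : (q : ℝ) * ∑ b, lam (B'.1 b) = Q * (Dn * ∑ b, lam (B'.1 b)) := by
        rw [hq']
        ring
      have h10 : (((d + 1) * (d + 1) * q : ℕ) : ℝ) * LE
          = (q : ℝ) * (((d + 1) * (d + 1) : ℕ) * LE) := by
        push_cast
        ring
      have h11 : (Q : ℝ) * ((∑ i, (c i : ℝ)) * Real.log σ) =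
          q * ((d + 1 : ℕ) * Real.log σ) + (Dn : ℝ) * t * ((∑ i, (pw i : ℝ)) * Real.log σ) +
          ((κ + 1 : ℕ) : ℝ) * Real.log σ := by
        rw [← mul_assoc, hκ', hq']
        push_cast
        ring
      rw [h10, h11]
      nlinarith [h5, h6, h9, hVlog]
    -- exponentiate
    have hWq : Wf x z ^ q ≠ 0 := pow_ne_zero _ hW0
    have hVz : V z ≠ 0 := Finset.prod_ne_zero_iff.2 fun i _ =>
      pow_ne_zero _ (norm_pos_iff.1 (hUz i))
    have hpos1 : 0 < ‖Wf x z ^ q * V z‖ * σ ^ (κ + 1) :=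
      mul_pos (norm_pos_iff.mpr (mul_ne_zero hWq hVz)) (pow_pos hσ _)
    have hpos2 : 0 < Real.exp (Q * C) * CX ^ q * (B / ε) ^ ((d + 1) * (d + 1) * q) *
        ∏ i, ‖U i z‖ ^ (Q * c i) := by positivity
    rw [← Real.log_le_log_iff hpos1 hpos2]
    have hVn : Real.log ‖V z‖ = ∑ i, ((Dn * t * pw i : ℕ) : ℝ) * Real.log ‖U i z‖ := by
      rw [hV]
      simp only [norm_prod, norm_pow]
      rw [Real.log_prod (fun i _ => (pow_pos (hUz i) _).ne')]
      exact Finset.sum_congr rfl fun i _ => Real.log_pow _ _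
    rw [norm_mul, norm_pow, Real.log_mul (mul_pos (pow_pos hX _) (norm_pos_iff.2 hVz)).ne'
      (pow_pos hσ _).ne', Real.log_mul (pow_pos hX _).ne' (norm_pos_iff.2 hVz).ne', hVn,
      Real.log_pow, Real.log_pow,
      Real.log_mul (by positivity) hprodpos.ne', Real.log_mul (by positivity)
      (pow_pos hBε0 _).ne', Real.log_mul (Real.exp_pos _).ne' (pow_pos hCXpos _).ne',
      Real.log_exp, Real.log_pow, Real.log_pow,
      Real.log_prod (fun i _ => (pow_pos (hUz i) _).ne')]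
    simp only [Real.log_pow]
    exact hmain

end Pool.Agent.Helper1K9.PN
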