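import Pool.Agent.Helper1K9.PN.Defs

/-!
A criterion for the condition on the multiplicities, and the example of the cyclic covers.
-/

set_option autoImplicit false

namespace Pool.Agent.Helper1K9.PN

variable {n q r : ℕ}

/-- If no point is on `N + 1` of the hyperplanes, all equations have degree `m`, all exponents of
the form with index `i` are at most `P i`, and each hyperplane which is not removed is in the branch
locus, then the condition on the multiplicities holds if
`(2 N + 1 - l) (2 m + l ∑ P i) < 2 m q` for `1 ≤ l ≤ n`. -/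
theorem big_of (X : Cover n q r) {N : ℕ} (hnN : n ≤ N) (hN : X.Subgeneral N) {m : ℕ} (hm0 : 0 < m)
    (hm : ∀ k, X.m k = m) (P : Fin q → ℕ) (he : ∀ k i, i ∉ X.bd → X.e k i ≤ P i)
    (hbr : ∀ i, i ∉ X.bd → ∃ k, X.e k i ≠ 0)
    (hP : ∀ l, 1 ≤ l → l ≤ n → (2 * N + 1 - l) * (2 * m + l * ∑ i, P i) < 2 * m * q) : X.Big := by
  refine ⟨N, P, m, hnN, hN, hm0, ?_, hP⟩
  intro v hv hv0
  obtain ⟨i, hi⟩ := Function.ne_iff.1 hv0
  have hi' : v i ≠ 0 := hi
  have hj : i ∉ X.bd := fun h => hi' (hv.bd i h)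
  obtain ⟨k, hk⟩ := hbr i hj
  have h1 : X.e k i * v i ≤ ∑ i, X.e k i * v i :=
    Finset.single_le_sum (f := fun i => X.e k i * v i) (fun _ _ => Nat.zero_le _)
      (Finset.mem_univ i)
  have h2 : 0 < X.e k i * v i := Nat.mul_pos (Nat.pos_of_ne_zero hk) (Nat.pos_of_ne_zero hi')
  have h3 : m ≤ ∑ i, X.e k i * v i := by
    have := Nat.le_of_dvd (lt_of_lt_of_le h2 h1) (hv.dvd k)
    rwa [hm k] at this
  refine h3.trans (Finset.sum_le_sum fun i _ => ?_)
  by_cases hb : i ∈ X.bd
  · rw [hv.bd i hb, Nat.mul_zero, Nat.mul_zero]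
  · exact Nat.mul_le_mul_right _ (he k i hb)

/-- The cyclic cover `y ^ m = ∏_i (∑_j c i j g_j)` of `ℙⁿ`, where `m` divides the number `q` of the
hyperplanes, without the points over the hyperplanes with index in `B`. -/
def cyclic (m : ℕ) (hm : 0 < m) (hq : m ∣ q) (c : Fin q → Fin (n + 1) → ℂ) (B : Set (Fin q)) :
    Cover n q 1 where
  c := c
  e := fun _ _ => 1
  m := fun _ => m
  bd := B
  m_pos := fun _ => hm
  bal := fun _ => by simpa using hq

/-- The condition holds for the cyclic cover if no point is on `N + 1` of the hyperplanes and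
`(2 N + 1 - l) (2 m + l s) < 2 m q` for `1 ≤ l ≤ n`, where `s` is the number of the hyperplanes
which are not removed. -/
theorem cyclic_big {N m : ℕ} (hnN : n ≤ N) (hm : 0 < m) (hq : m ∣ q)
    {c : Fin q → Fin (n + 1) → ℂ} {B : Set (Fin q)} (hN : (cyclic m hm hq c B).Subgeneral N)
    (h : ∀ l, 1 ≤ l → l ≤ n → (2 * N + 1 - l) * (2 * m + l * Bᶜ.ncard) < 2 * m * q) :
    (cyclic m hm hq c B).Big := by
  classical
  have h1 : ∑ j : Fin q, (if j ∈ B then 0 else 1) = Bᶜ.ncard := by
    rw [Set.ncard_eq_toFinset_card', Finset.sum_ite, Finset.sum_const_zero, zero_add,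
      Finset.sum_const, smul_eq_mul, mul_one]
    congr 1
    ext j
    simp
  refine big_of _ hnN hN hm (fun _ => rfl) (fun i => if i ∈ B then 0 else 1)
    (fun _ j hj => ?_) (fun _ _ => ⟨0, one_ne_zero⟩) fun l h2 h3 => ?_
  · have h0 : ∀ j : Fin q, j ∉ B → 1 ≤ if j ∈ B then 0 else 1 := fun j hj => by
      rw [if_neg hj]
    exact h0 j hj
  · rw [h1]
    exact h l h2 h3

/-- The condition holds for the cyclic covers of degree `m ≥ n (n + 1)` which are branched over more
than `4 n` hyperplanes in general position. -/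
theorem cyclic_general {m : ℕ} (hm : n * (n + 1) ≤ m) (hm0 : 0 < m) (hq : m ∣ q)
    (h4 : 4 * n < q) {c : Fin q → Fin (n + 1) → ℂ}
    (hN : (cyclic m hm0 hq c ∅).Subgeneral n) : (cyclic m hm0 hq c ∅).Big := by
  refine cyclic_big le_rfl hm0 hq hN fun l h1 h2 => ?_
  rw [Set.compl_empty, Set.ncard_univ, Nat.card_eq_fintype_card, Fintype.card_fin]
  obtain ⟨k, hk⟩ : ∃ k, n = l + k := ⟨n - l, by omega⟩
  have h3 : 2 * n + 1 - l = l + 2 * k + 1 := by omega
  have h5 : (2 * n + 1 - l) * l ≤ m := by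
    rw [h3]
    refine le_trans ?_ hm
    rw [hk]
    nlinarith
  have h6 : 2 * (2 * n + 1 - l) < q := by omega
  calc (2 * n + 1 - l) * (2 * m + l * q) = m * (2 * (2 * n + 1 - l)) +
        ((2 * n + 1 - l) * l) * q := by ring
    _ < m * q + m * q := by
        refine add_lt_add_of_lt_of_le ?_ (Nat.mul_le_mul_right _ h5)
        exact Nat.mul_lt_mul_of_pos_left h6 hm0
    _ = 2 * m * q := by ring

end Pool.Agent.Helper1K9.PN
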