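import Pool.Agent.Helper1K9.PN.Core
import Pool.Agent.Helper1K9.PN.Alg
import Pool.Agent.Helper1K9.PK.Plc
import Pool.Agent.Y221.AP.Inf
import Pool.Agent.Y221.AP.Main
import Pool.Agent.Y221.AP.Wei

/-!
Curves near infinity in the covers of projective space: the case of degenerate curves, and curves
which are given by meromorphic functions.
-/

set_option autoImplicit false
set_option linter.overlappingInstances false

namespace Pool.Agent.Helper1K9.PN

open Filter Metric Real Set Topology Pool.Agent.H159R3.NV Pool.Agent.W602.NC Pool.Agent.W602.TL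
  Pool.Agent.W603.BP Pool.Agent.W601.PH Pool.Agent.W602.Cov Pool.Agent.TH152.AC
  Pool.Agent.TH152.HY
open Pool.Agent.W602.GT (tn)

/-- curves near infinity -/
theorem curve_ext {n p r : ℕ} (X : Cover n (p + 1) r) {N : ℕ} (hnN : n ≤ N)
    (hN : X.Subgeneral N) (pw : Fin (p + 1) → ℕ) {Q : ℕ} (hQ : 0 < Q)
    (hb : ∀ l, 1 ≤ l → l ≤ n → (2 * N + 1 - l) * (2 * Q + l * ∑ i, pw i) < 2 * Q * (p + 1))
    {r0 : ℝ} (hr0 : 0 < r0)
    {x : ℂ → Fin (n + 1) → ℂ} (hx : ∀ z ∈ Ext r0, ∀ k, AnalyticAt ℂ (fun w => x w k) z)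
    (hx0 : ∀ z ∈ Ext r0, x z ≠ 0) (hne : ∀ i, ∃ z ∈ Ext r0, X.fm i (x z) ≠ 0)
    (hmult : ∀ z ∈ Ext r0, ∀ a : Fin (p + 1) → ℕ,
      (∀ i, analyticOrderAt (fun w => X.fm i (x w)) z = a i) → a ≠ 0 → Q ≤ ∑ i, pw i * a i)
    (j : Fin (p + 1)) :
    ∃ R : ℂ → ℂ, MeromorphicAt (fun w => R w⁻¹) 0 ∧ ∃ R0 : ℝ, ∀ z, R0 < ‖z‖ →
      X.fm j (x z) = R z * X.fm 0 (x z) := by
  classical
  set Lv : Submodule ℂ (Fin (n + 1) → ℂ) := Submodule.span ℂ (x '' Ext r0) with hLv
  have hxL : ∀ z ∈ Ext r0, x z ∈ Lv := fun z hz => Submodule.subset_span ⟨z, hz, rfl⟩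
  obtain ⟨zn, hzn⟩ := Ext_nonempty r0
  obtain ⟨d, hd⟩ : ∃ d, Module.finrank ℂ Lv = d + 1 := by
    have h1 : 0 < Module.finrank ℂ Lv := by
      rw [Module.finrank_pos_iff]
      exact ⟨⟨⟨x zn, hxL zn hzn⟩, 0, fun h => hx0 zn hzn (congrArg Subtype.val h)⟩⟩
    exact ⟨Module.finrank ℂ Lv - 1, by omega⟩
  have hdn : d ≤ n := by
    have h1 := Submodule.finrank_le Lv
    rw [hd, Module.finrank_fintype_fun_eq_card, Fintype.card_fin] at h1
    omega
  let b : Module.Basis (Fin (d + 1)) ℂ Lv := Module.finBasisOfFinrankEq ℂ Lv hd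
  let A : (Fin (d + 1) → ℂ) →ₗ[ℂ] (Fin (n + 1) → ℂ) :=
    Lv.subtype ∘ₗ (b.equivFun.symm : (Fin (d + 1) → ℂ) →ₗ[ℂ] Lv)
  have hAi : Function.Injective A := Subtype.val_injective.comp b.equivFun.symm.injective
  have hAinj : LinearMap.ker A = ⊥ := LinearMap.ker_eq_bot.2 hAi
  obtain ⟨S, hS⟩ := A.exists_leftInverse_of_injective hAinj
  have hSA : ∀ y, S (A y) = y := fun y => LinearMap.congr_fun hS y
  have hAr : ∀ v ∈ Lv, ∃ y, A y = v := fun v hv => ⟨b.equivFun ⟨v, hv⟩, by simp [A]⟩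
  have hAS : ∀ v ∈ Lv, A (S v) = v := by
    intro v hv
    obtain ⟨y, rfl⟩ := hAr v hv
    rw [hSA]
  set y : ℂ → Fin (d + 1) → ℂ := fun z => S (x z) with hy
  set ℓ' : Fin (p + 1) → Form d := fun i => X.fm i ∘ₗ A with hℓ'
  have hℓy : ∀ i, ∀ z ∈ Ext r0, ℓ' i (y z) = X.fm i (x z) := by
    intro i z hz
    simp only [hℓ', hy, LinearMap.comp_apply]
    rw [hAS _ (hxL z hz)]
  have hyan : ∀ z ∈ Ext r0, ∀ k, AnalyticAt ℂ (fun w => y w k) z := by
    intro z hz k
    exact form_an (LinearMap.proj k ∘ₗ S) (hx z hz)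
  have hynd : ∀ φ : Form d, (∀ z ∈ Ext r0, φ (y z) = 0) → φ = 0 := by
    intro φ hφ
    have h1 : Lv ≤ LinearMap.ker (φ ∘ₗ S) := by
      rw [hLv, Submodule.span_le]
      rintro _ ⟨z, hz, rfl⟩
      exact hφ z hz
    ext1 k
    ext
    have h2 : A (Pi.single k 1) ∈ Lv := (b.equivFun.symm (Pi.single k 1)).2
    have h3 := h1 h2
    rw [LinearMap.mem_ker, LinearMap.comp_apply, hSA] at h3
    simpa using h3
  have hy0 : ∀ z ∈ Ext r0, y z ≠ 0 := by
    intro z hz h0
    apply hx0 z hz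
    rw [← hAS _ (hxL z hz)]
    change A (y z) = 0
    rw [h0, map_zero]
  have hℓ'0 : ∀ i, ℓ' i ≠ 0 := by
    intro i h0
    obtain ⟨z, hz, h⟩ := hne i
    rw [← hℓy i z hz, h0] at h
    exact h rfl
  rcases Nat.eq_zero_or_pos d with hd0 | hd1
  · -- constant curves
    subst hd0
    have h1 : ∀ i, ∀ z ∈ Ext r0, X.fm i (x z) = ℓ' i (Pi.single 0 1) * y z 0 := by
      intro i z hz
      rw [← hℓy i z hz, form_sum (ℓ' i) (y z)]
      simp
    obtain ⟨z0, hz0, h0⟩ := hne 0
    have h2 : ℓ' 0 (Pi.single 0 1) ≠ 0 := by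
      rw [h1 0 z0 hz0] at h0
      exact left_ne_zero_of_mul h0
    refine ⟨fun _ => ℓ' j (Pi.single 0 1) / ℓ' 0 (Pi.single 0 1), MeromorphicAt.const _ 0, r0,
      fun z hz => ?_⟩
    rw [h1 j z hz, h1 0 z hz]
    field_simp
  · obtain ⟨hq, hnum⟩ := numbers (q := p + 1) hnN hb hd1 hdn
    have hsub := subg_restrict X hN hAi
    obtain ⟨Dn, c, hDn, hc, hsum⟩ := nochka hsub (hdn.trans hnN) (by omega)
    have hspan : Submodule.span ℂ (Set.range ℓ') = ⊤ := by
      obtain ⟨F, -, hF⟩ := Finset.exists_subset_card_eq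
        (s := (Finset.univ : Finset (Fin (p + 1)))) (n := N + 1)
        (by rw [Finset.card_univ, Fintype.card_fin]; omega)
      rw [eq_top_iff, ← hsub F hF]
      exact Submodule.span_mono (Set.image_subset_range _ _)
    obtain ⟨R, hR, R0, hRe⟩ := nondeg hℓ'0 hDn hc (exists_bases hspan) pw hQ (hnum hDn hsum)
      hr0 hyan hy0 hynd (by
      intro z hz a ha
      refine hmult z hz a fun i => ?_
      rw [← ha i]
      refine analyticOrderAt_congr ?_
      filter_upwards [(Ext_open r0).mem_nhds hz] with w hw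
      exact (hℓy i w hw).symm) j
    refine ⟨R, hR, max R0 r0, fun z hz => ?_⟩
    have h1 : z ∈ Ext r0 := lt_of_le_of_lt (le_max_right _ _) hz
    rw [← hℓy j z h1, ← hℓy 0 z h1]
    exact hRe z (lt_of_le_of_lt (le_max_left _ _) hz)

open FF Pool.Agent.W603.LV Pool.Agent.Y221.AP PK

/-- **The points with values in the field of meromorphic functions.** -/
theorem minf_of_pt {n q r : ℕ} (X : Cover n q r) (hX : X.Big) {g : Fin (n + 1) → MK}
    {y : Fin r → MK} (hpt : X.Pt g y)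
    (hint : ∀ (z : ℂ) (hz : z ∈ Om), ∀ i ∈ X.bd, ∀ j, (plc hz).Reg (g j / X.lin i g))
    (i0 : Fin q) (j : Fin (n + 1)) : MInf (g j / X.lin i0 g) := by
  classical
  obtain ⟨p, rfl⟩ : ∃ p, q = p + 1 := by
    cases q with
    | zero => exact i0.elim0
    | succ p => exact ⟨p, rfl⟩
  rcases Nat.eq_zero_or_pos n with hn0 | hn1
  · -- projective space of dimension zero
    subst hn0
    have h1 : X.lin i0 g = algebraMap ℂ MK (X.c i0 0) * g 0 := by
      unfold Cover.lin
      simp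
    have hj : j = 0 := Fin.ext (by have := j.2; rw [Fin.val_zero]; omega)
    have h2 := hpt.off i0
    rw [h1] at h2
    have h3 : g 0 ≠ 0 := right_ne_zero_of_mul h2
    have h4 : g j / X.lin i0 g = algebraMap ℂ MK (X.c i0 0)⁻¹ := by
      rw [h1, hj, map_inv₀]
      have := left_ne_zero_of_mul h2
      field_simp
    rw [h4]
    exact minf_const _
  obtain ⟨N, pw, Q, hnN, hN, hQ, hp, hb⟩ := hX
  have hq := (numbers (q := p + 1) hnN hb le_rfl hn1).1
  obtain ⟨b, hb'⟩ := coord_comb X hN (by omega)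
  set u : Fin (p + 1) → MK := fun i => X.lin i g / X.lin i0 g with hu
  have hu0 : u i0 = 1 := div_self (hpt.off i0)
  have hune : ∀ i, u i ≠ 0 := fun i => div_ne_zero (hpt.off i) (hpt.off i0)
  obtain ⟨e, U, hNr⟩ := exists_nrm u hu0
  -- the coordinates
  set x : ℂ → Fin (n + 1) → ℂ := fun z j => ∑ i, b j i * U i z with hx
  have hUan : ∀ i, ∀ z ∈ Ext 2, AnalyticAt ℂ (U i) z := by
    intro i z hz
    rw [hNr.eq]
    exact hNr.reg i z hz
  have hxan : ∀ z ∈ Ext 2, ∀ k, AnalyticAt ℂ (fun w => x w k) z := fun z hz k =>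
    Finset.analyticAt_fun_sum _ fun i _ => analyticAt_const.fun_mul (hUan i z hz)
  have hfm : ∀ i, ∀ z ∈ Ext 2, X.fm i (x z) = U i z := by
    intro i z hz
    obtain ⟨zz, hzz⟩ : ∃ zz : Om, (zz : ℂ) = z := ⟨⟨z, sub_Om hz⟩, rfl⟩
    have hr : ∀ i, e * u i ∈ Oz zz := fun i => by
      rw [mem_Oz, hzz]
      exact hNr.reg i z hz
    have h1 : ∑ j, algebraMap ℂ (Oz zz) (X.c i j) *
        ∑ i', algebraMap ℂ (Oz zz) (b j i') * (⟨e * u i', hr i'⟩ : Oz zz) = ⟨e * u i, hr i⟩ := by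
      apply Subtype.ext
      push_cast
      have h2 : ∀ j, ∑ i', algebraMap ℂ MK (b j i') * (e * u i') = e / X.lin i0 g * g j := by
        intro j
        conv_rhs => rw [hb' MK g j, Finset.mul_sum]
        refine Finset.sum_congr rfl fun i' _ => ?_
        simp only [hu]
        ring
      have h3 : ∑ j, algebraMap ℂ MK (X.c i j) *
          ∑ i', algebraMap ℂ MK (b j i') * (e * u i') = e * u i := by
        simp only [h2]
        have h4 : u i = (∑ j, algebraMap ℂ MK (X.c i j) * g j) / X.lin i0 g := rfl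
        rw [h4, mul_div_assoc', Finset.mul_sum, Finset.sum_div]
        exact Finset.sum_congr rfl fun j _ => by ring
      exact h3
    have h2 := congrArg (evO zz) h1
    rw [map_sum] at h2
    simp only [map_mul, map_sum, AlgHom.commutes, evO_apply, hzz] at h2
    rw [fm_apply]
    simp only [hx, hNr.eq]
    exact h2
  have hx0 : ∀ z ∈ Ext 2, x z ≠ 0 := by
    intro z hz h0
    obtain ⟨a, ha⟩ := hNr.nz z hz
    apply ha
    rw [← hfm a z hz, h0, map_zero]
  have hexists : ∀ x : MK, x ≠ 0 → ∃ z ∈ Ext 2, Fn x z ≠ 0 := by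
    intro x hx
    have h3 : (3 : ℂ) ∈ Ext 2 := by
      change (2 : ℝ) < ‖(3 : ℂ)‖
      norm_num
    have h1 := cod_ev (Fn_ne_codis hx) (sub_Om h3)
    have h2 : ∀ᶠ z in 𝓝[≠] (3 : ℂ), z ∈ Ext 2 :=
      nhdsWithin_le_nhds ((Ext_open 2).mem_nhds h3)
    obtain ⟨z, h3, h4⟩ := (h2.and h1).exists
    exact ⟨z, h3, h4⟩
  have hfinal := fun j' => curve_ext X hnN hN pw hQ hb two_pos hxan hx0 (by
    intro i
    obtain ⟨z, hz, h⟩ := hexists _ (mul_ne_zero hNr.ne (hune i))
    refine ⟨z, hz, ?_⟩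
    rw [hfm i z hz, hNr.eq]
    exact h) (by
    intro z hz a ha ha0
    have hzO : z ∈ Om := sub_Om hz
    -- the orders at the point
    have h1 : ∀ i, (plc hzO).ord (e * u i) = a i := by
      intro i
      have h2 : analyticOrderAt (U i) z = a i := by
        rw [← ha i]
        refine analyticOrderAt_congr ?_
        filter_upwards [(Ext_open 2).mem_nhds hz] with w hw
        exact (hfm i w hw).symm
      have h3 := (hUan i z hz).meromorphicOrderAt_eq
      rw [h2, ENat.map_natCast, hNr.eq] at h3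
      have h4 := odr_eq hzO (mul_ne_zero hNr.ne (hune i))
      unfold odr at h4
      rw [h3] at h4
      exact_mod_cast h4.symm
    have h2 : ∀ i, (plc hzO).ord (X.lin i g) =
        ((plc hzO).ord (X.lin i0 g) - (plc hzO).ord e) + a i := by
      intro i
      have h3 := h1 i
      rw [(plc hzO).ord_mul hNr.ne (hune i)] at h3
      have h4 : (plc hzO).ord (u i) = (plc hzO).ord (X.lin i g) - (plc hzO).ord (X.lin i0 g) :=
        (plc hzO).ord_div (hpt.off i) (hpt.off i0)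
      rw [h4] at h3
      linarith
    have hv : ∀ i, a i ≠ 0 → ∑ j, X.c i j * x z j = 0 := by
      intro i hi
      rw [← fm_apply]
      by_contra h3
      have h4 := (form_an (X.fm i) (hxan z hz)).analyticOrderAt_eq_zero.mpr h3
      have h5 := ha i
      rw [h4] at h5
      exact hi (by exact_mod_cast h5.symm)
    refine hp a (mult_of_place X hpt (plc hzO) (hint z hzO) h2 ?_ ⟨x z, hx0 z hz, hv⟩) ha0
    by_contra hcon
    push Not at hcon
    obtain ⟨F, -, hF⟩ := Finset.exists_subset_card_eq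
      (s := (Finset.univ : Finset (Fin (p + 1)))) (n := N + 1)
      (by rw [Finset.card_univ, Fintype.card_fin]; omega)
    exact hx0 z hz (hN F hF _ fun i _ => hv i (hcon i))) j'
  have h1 := fun i => minf_of_quot hNr hune hu0 (by
    intro j'
    obtain ⟨R, hR, R0, hRe⟩ := hfinal j'
    refine ⟨R, hR, max R0 2, fun z hz => ?_⟩
    have hz2 : z ∈ Ext 2 := lt_of_le_of_lt (le_max_right _ _) hz
    rw [← hfm j' z hz2, ← hfm 0 z hz2]
    exact hRe z (lt_of_le_of_lt (le_max_left _ _) hz)) i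
  have h2 : g j / X.lin i0 g = ∑ i, algebraMap ℂ MK (b j i) * u i := by
    rw [hb' MK g j, Finset.sum_div]
    exact Finset.sum_congr rfl fun i _ => mul_div_assoc _ _ _
  rw [h2]
  have h3 : ∀ s : Finset (Fin (p + 1)), MInf (∑ i ∈ s, algebraMap ℂ MK (b j i) * u i) := by
    intro s
    induction s using Finset.induction_on with
    | empty =>
      rw [Finset.sum_empty]
      have := minf_const 0
      rwa [map_zero] at this
    | insert a s ha ih =>
      rw [Finset.sum_insert ha]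
      exact ((minf_const _).mul (h1 a)).add ih
  exact h3 _

end Pool.Agent.Helper1K9.PN
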