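import Pool.Agent.Helper1K9.PN.Top
import Pool.Agent.Helper1K9.PK.Expl

/-!
Explicit forms of the theorem on holomorphic curves: families of meromorphic functions on the
punctured disc and on the complex plane which satisfy the equations of a cover.
-/

set_option autoImplicit false

open FF Pool.Agent.W603.LV Pool.Agent.W602.GT

namespace Pool.Agent.Helper1K9.PN

open Filter Metric Set Topology Pool.Agent.W603.BP Pool.Agent.Y221.AP PK

variable {n q r : ℕ} (X : Cover n q r)

/-- the values of the linear forms -/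
theorem lin_cl {g : Fin (n + 1) → ℂ → ℂ} (hg : ∀ j, MeromorphicOn (g j) Om) (i : Fin q)
    (h : MeromorphicOn (fun w => ∑ j, X.c i j * g j w) Om) :
    X.lin i (fun j => cl (g j) (hg j)) = cl (fun w => ∑ j, X.c i j * g j w) h := by
  classical
  unfold Cover.lin
  have h0 : ∀ (s : Finset (Fin (n + 1))) (hs : MeromorphicOn (fun w => ∑ j ∈ s, X.c i j * g j w) Om),
      ∑ j ∈ s, algebraMap ℂ MK (X.c i j) * cl (g j) (hg j) =
        cl (fun w => ∑ j ∈ s, X.c i j * g j w) hs := by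
    intro s hs
    induction s using Finset.induction_on with
    | empty =>
      rw [Finset.sum_empty]
      symm
      rw [cl_eq_zero]
      exact Eventually.of_forall fun w => by simp
    | insert a s ha ih =>
      have hs' : MeromorphicOn (fun w => ∑ j ∈ s, X.c i j * g j w) Om := fun z hz =>
        MeromorphicAt.fun_sum fun j _ => (MeromorphicAt.const _ z).fun_mul (hg j z hz)
      rw [Finset.sum_insert ha, ih hs']
      have h1 : algebraMap ℂ MK (X.c i a) * cl (g a) (hg a) =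
          cl (fun w => X.c i a * g a w) ((mconst (X.c i a)).mul (hg a)) := by
        rw [← cl_const]
        rfl
      have h2 : cl (fun w => X.c i a * g a w) ((mconst (X.c i a)).mul (hg a)) +
          cl (fun w => ∑ j ∈ s, X.c i j * g j w) hs' =
          cl (fun w => X.c i a * g a w + ∑ j ∈ s, X.c i j * g j w)
            (((mconst (X.c i a)).mul (hg a)).add hs') := rfl
      rw [h1, h2]
      refine cl_eq.2 (Eventually.of_forall fun w => ?_)
      rw [Finset.sum_insert ha]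
  exact h0 Finset.univ h

theorem lin_mero {S : Set ℂ} {g : Fin (n + 1) → ℂ → ℂ} (hg : ∀ j, MeromorphicOn (g j) S)
    (i : Fin q) : MeromorphicOn (fun w => ∑ j, X.c i j * g j w) S := fun z hz =>
  MeromorphicAt.fun_sum fun j _ => (MeromorphicAt.const _ z).fun_mul (hg j z hz)

/-- the point of the cover with values in the field of meromorphic functions -/
theorem pt_of_cod {g : Fin (n + 1) → ℂ → ℂ} {y : Fin r → ℂ → ℂ} (hg : ∀ j, MeromorphicOn (g j) Om)
    (hy : ∀ k, MeromorphicOn (y k) Om)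
    (heq : ∀ᶠ w in cod, ∀ k, y k w ^ X.m k = ∏ i, (∑ j, X.c i j * g j w) ^ X.e k i)
    (hoff : ∀ i, ¬ ∀ᶠ w in cod, ∑ j, X.c i j * g j w = 0) :
    X.Pt (fun j => cl (g j) (hg j)) (fun k => cl (y k) (hy k)) := by
  classical
  constructor
  · intro k
    -- pass to the ring of functions
    let G : Fin (n + 1) → MerS := fun j => ⟨g j, hg j⟩
    let Y : MerS := ⟨y k, hy k⟩
    have h1 : cl (y k) (hy k) = Ideal.Quotient.mk MJ Y := rfl
    have h2 : ∀ j, cl (g j) (hg j) = Ideal.Quotient.mk MJ (G j) := fun i => rfl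
    have h3 : ∀ c : ℂ, algebraMap ℂ MK c = Ideal.Quotient.mk MJ (algebraMap ℂ MerS c) :=
      fun c => rfl
    unfold Cover.lin
    simp only [h1, h2, h3, ← map_mul, ← map_sum, ← map_pow, ← map_prod]
    rw [Ideal.Quotient.eq, mem_MJ]
    filter_upwards [heq] with w hw
    have h4 : ∀ f : MerS, f.1 w = evS w f := fun f => rfl
    rw [h4, map_sub, map_pow, map_prod, sub_eq_zero]
    have h5 : evS w Y = y k w := rfl
    rw [h5, hw k]
    refine Finset.prod_congr rfl fun i _ => ?_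
    rw [map_pow, map_sum]
    congr 1
  · intro i h0
    apply hoff i
    rw [lin_cl X hg i (lin_mero X hg i), cl_eq_zero] at h0
    exact h0

/-- the interior -/
theorem reg_quot {f h : ℂ → ℂ} (hf : MeromorphicOn f Om) (hh : MeromorphicOn h Om) {z : ℂ}
    (hz : z ∈ Om) (h0 : cl h hh ≠ 0) (hle : meromorphicOrderAt h z ≤ meromorphicOrderAt f z) :
    (plc hz).Reg (cl f hf / cl h hh) := by
  by_cases hf0 : cl f hf = 0
  · left
    rw [hf0, zero_div]
  right
  rw [(plc hz).ord_div hf0 h0]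
  have h1 : odr (cl f hf) z = meromorphicOrderAt f z := odr_cl hf hz
  have h2 : odr (cl h hh) z = meromorphicOrderAt h z := odr_cl hh hz
  rw [← h1, ← h2, odr_eq hz hf0, odr_eq hz h0] at hle
  have h3 : (plc hz).ord (cl h hh) ≤ (plc hz).ord (cl f hf) := by exact_mod_cast hle
  linarith

/-- **Meromorphic functions on the punctured disc.** -/
theorem discs (hX : X.Big) {g : Fin (n + 1) → ℂ → ℂ} {y : Fin r → ℂ → ℂ}
    (hg : ∀ j, MeromorphicOn (g j) (ball 0 1 \ {0}))
    (hy : ∀ k, MeromorphicOn (y k) (ball 0 1 \ {0}))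
    (heq : ∀ z ∈ ball (0 : ℂ) 1 \ {0}, ∀ᶠ w in 𝓝[≠] z, ∀ k,
      y k w ^ X.m k = ∏ i, (∑ j, X.c i j * g j w) ^ X.e k i)
    (hoff : ∀ i, ∃ z ∈ ball (0 : ℂ) 1 \ {0}, ∃ᶠ w in 𝓝[≠] z, ∑ j, X.c i j * g j w ≠ 0)
    (hbd : ∀ i ∈ X.bd, ∀ j, ∀ z ∈ ball (0 : ℂ) 1 \ {0},
      meromorphicOrderAt (fun w => ∑ j, X.c i j * g j w) z ≤ meromorphicOrderAt (g j) z)
    (i : Fin q) (j : Fin (n + 1)) :
    ∃ R : ℂ → ℂ, MeromorphicAt R 0 ∧ ∀ z ∈ ball (0 : ℂ) 1 \ {0}, ∀ᶠ w in 𝓝[≠] z,
      g j w = R w * ∑ j, X.c i j * g j w := by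
  have hOm0 : ∀ {z : ℂ}, z ∈ Om → z ≠ 0 := by
    intro z hz h0
    have h1 : (1 : ℝ) < ‖z‖ := hz
    rw [h0, norm_zero] at h1
    linarith
  have hinv : ∀ {z : ℂ}, z ∈ Om → z⁻¹ ∈ ball (0 : ℂ) 1 \ {0} := fun hz =>
    mem_disc.2 (inv_mem_PB one_pos (by rwa [inv_one]))
  have hinv' : ∀ {w : ℂ}, w ∈ ball (0 : ℂ) 1 \ {0} → w⁻¹ ∈ Om := by
    intro w hw
    have := inv_mem_Ext (mem_disc.1 hw)
    rwa [inv_one] at this
  have hw0 : ∀ {w : ℂ}, w ∈ ball (0 : ℂ) 1 \ {0} → w ≠ 0 := fun hw => hw.2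
  have hgi : ∀ j, MeromorphicOn (fun z => g j z⁻¹) Om := fun j => mero_inv (hg j)
  have hpt := pt_of_cod X (g := fun j z => g j z⁻¹) (y := fun k z => y k z⁻¹)
    hgi (fun k => mero_inv (hy k))
    (cod_of_ev fun x hx => (tendsto_inv_ne (hOm0 hx)).eventually (heq _ (hinv hx)))
    (fun i h => by
      obtain ⟨z, hz, hfr⟩ := hoff i
      refine hfr ?_
      have h1 := (tendsto_inv_ne (hw0 hz)).eventually (cod_ev h (hinv' hz))
      filter_upwards [h1] with w hw
      rw [inv_inv] at hw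
      exact not_not.2 hw)
  have hlm : ∀ i, MeromorphicOn (fun w => ∑ j, X.c i j * g j w⁻¹) Om := fun i =>
    lin_mero X hgi i
  have hlin : ∀ i, X.lin i (fun j => cl (fun z => g j z⁻¹) (hgi j)) =
      cl (fun w => ∑ j, X.c i j * g j w⁻¹) (hlm i) := fun i => lin_cl X hgi i (hlm i)
  have hder : ∀ {z : ℂ}, z ∈ Om → ∀ f : ℂ → ℂ,
      meromorphicOrderAt (fun w => f w⁻¹) z = meromorphicOrderAt f z⁻¹ := by
    intro z hz f
    exact meromorphicOrderAt_comp_of_deriv_ne_zero (f := f)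
      (analyticAt_inv (𝕜 := ℂ) (hOm0 hz)) (by
        change deriv (fun w : ℂ => w⁻¹) z ≠ 0
        rw [(hasDerivAt_inv (hOm0 hz)).deriv]
        exact neg_ne_zero.2 (inv_ne_zero (pow_ne_zero 2 (hOm0 hz))))
  have hint : ∀ (z : ℂ) (hz : z ∈ Om), ∀ i ∈ X.bd, ∀ j,
      (plc hz).Reg (cl (fun z => g j z⁻¹) (hgi j) /
        X.lin i (fun j => cl (fun z => g j z⁻¹) (hgi j))) := by
    intro z hz i hi j
    have h0 := hpt.off i
    rw [hlin i] at h0 ⊢
    refine reg_quot _ _ hz h0 ?_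
    rw [hder hz (fun w => ∑ j, X.c i j * g j w), hder hz (g j)]
    exact hbd i hi j _ (hinv hz)
  have hM := minf_of_pt X hX hpt hint i j
  obtain ⟨T, hT⟩ : ∃ T, T = cl (fun z => g j z⁻¹) (hgi j) /
    X.lin i (fun j => cl (fun z => g j z⁻¹) (hgi j)) := ⟨_, rfl⟩
  rw [← hT] at hM
  refine ⟨fun w => Fn T w⁻¹, hM, fun z hz => ?_⟩
  have h1 : cl (fun z => g j z⁻¹) (hgi j) =
      cl (fun w => Fn T w * ∑ j, X.c i j * g j w⁻¹) ((Fn_mero T).mul (hlm i)) := by
    have h2 : cl (fun w => Fn T w * ∑ j, X.c i j * g j w⁻¹) ((Fn_mero T).mul (hlm i)) =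
        cl (Fn T) (Fn_mero T) * cl (fun w => ∑ j, X.c i j * g j w⁻¹) (hlm i) := rfl
    rw [h2, cl_Fn, ← hlin, hT, div_mul_cancel₀ _ (hpt.off i)]
  have h3 := (tendsto_inv_ne (hw0 hz)).eventually (cod_ev (cl_eq.1 h1) (hinv' hz))
  filter_upwards [h3] with w hw
  simp only [inv_inv] at hw
  exact hw

/-- a meromorphic function on the plane is constant if its composition with the exponential function
is meromorphic at infinity -/
theorem const_of_exp {f : ℂ → ℂ} (hf : ∀ z, MeromorphicAt f z)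
    (hfe : MeromorphicOn (fun z => f (Complex.exp z)) Om)
    (hinf : MInf (cl (fun z => f (Complex.exp z)) hfe)) :
    ∃ a : ℂ, ∀ z, ∀ᶠ w in 𝓝[≠] z, f w = a := by
  obtain ⟨T, hT⟩ : ∃ T, T = cl (fun z => f (Complex.exp z)) hfe := ⟨_, rfl⟩
  rw [← hT] at hinf
  -- a point where the function is holomorphic
  have hana : ∀ᶠ w in 𝓝[≠] (2 : ℂ), AnalyticAt ℂ f (Complex.exp w) :=
    (tendsto_exp_ne 2).eventually (hf _).eventually_analyticAt
  have hre : ∀ᶠ w in 𝓝[≠] (2 : ℂ), 1 < w.re := by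
    refine nhdsWithin_le_nhds ?_
    exact (Complex.continuous_re.tendsto (2 : ℂ)).eventually_const_lt (by norm_num)
  obtain ⟨z0, hz0, hz1⟩ := (hana.and hre).exists
  obtain ⟨a, ha⟩ : ∃ a, a = f (Complex.exp z0) := ⟨_, rfl⟩
  -- the translates
  have hzk : ∀ k : ℕ, z0 + 2 * Real.pi * Complex.I * k ∈ Om := by
    intro k
    have h1 : (z0 + 2 * Real.pi * Complex.I * k).re = z0.re := by
      simp
    change (1 : ℝ) < ‖z0 + 2 * Real.pi * Complex.I * k‖
    calc (1 : ℝ) < z0.re := hz1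
      _ = (z0 + 2 * Real.pi * Complex.I * k).re := h1.symm
      _ ≤ _ := Complex.re_le_norm _
  have hexpk : ∀ k : ℕ, Complex.exp (z0 + 2 * Real.pi * Complex.I * k) = Complex.exp z0 := by
    intro k
    have := Complex.exp_periodic.nat_mul k
    have h2 := this z0
    rw [← h2]
    congr 1
    ring
  have hvalk : ∀ k : ℕ, Fn T (z0 + 2 * Real.pi * Complex.I * k) = a := by
    intro k
    have h1 : AnalyticAt ℂ (fun z => f (Complex.exp z)) (z0 + 2 * Real.pi * Complex.I * k) := by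
      have h2 : AnalyticAt ℂ f (Complex.exp (z0 + 2 * Real.pi * Complex.I * k)) := by
        rw [hexpk]
        exact hz0
      exact h2.comp analyticAt_cexp
    rw [hT, (Fn_cl hfe (hzk k) h1).self_of_nhds]
    change f (Complex.exp (z0 + 2 * Real.pi * Complex.I * k)) = a
    rw [hexpk, ha]
  -- the value `a` is attained near infinity
  have hfreq : ∃ᶠ w in 𝓝[≠] (0 : ℂ), Fn T w⁻¹ - a = 0 := by
    have hlim : Tendsto (fun k : ℕ => (z0 + 2 * Real.pi * Complex.I * k)⁻¹) atTop
        (𝓝[≠] (0 : ℂ)) := by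
      rw [tendsto_nhdsWithin_iff]
      constructor
      · refine tendsto_inv₀_cobounded.comp ?_
        rw [← tendsto_norm_atTop_iff_cobounded]
        have h1 : ∀ k : ℕ, (2 * Real.pi) * k - ‖z0‖ ≤ ‖z0 + 2 * Real.pi * Complex.I * k‖ := by
          intro k
          have h2 : ‖(2 * Real.pi * Complex.I * k : ℂ)‖ = 2 * Real.pi * k := by
            rw [norm_mul, norm_mul, norm_mul, Complex.norm_I, Complex.norm_real, Real.norm_eq_abs,
              abs_of_pos Real.pi_pos, Complex.norm_natCast, mul_one]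
            simp
          have h3 := norm_sub_le (z0 + 2 * Real.pi * Complex.I * k) z0
          rw [add_sub_cancel_left, h2] at h3
          linarith
        refine tendsto_atTop_mono h1 ?_
        refine tendsto_atTop_add_const_right _ _ ?_
        exact Tendsto.const_mul_atTop (by positivity) tendsto_natCast_atTop_atTop
      · refine Eventually.of_forall fun k => ?_
        refine inv_ne_zero ?_
        intro h0
        have h1 := hzk k
        rw [h0] at h1
        have h2 : (1 : ℝ) < ‖(0 : ℂ)‖ := h1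
        rw [norm_zero] at h2
        linarith
    refine hlim.frequently (Eventually.frequently (Eventually.of_forall fun k => ?_))
    rw [inv_inv, hvalk, sub_self]
  have hmer : MeromorphicAt (fun w => Fn T w⁻¹ - a) 0 := hinf.sub (MeromorphicAt.const a 0)
  have hev := hmer.frequently_zero_iff_eventuallyEq_zero.1 hfreq
  obtain ⟨z1, hz1O, hz1e⟩ := of_inv (p := fun v => Fn T v = a) (by
    filter_upwards [hev] with w hw
    exact sub_eq_zero.1 hw)
  refine ⟨a, fun z => ?_⟩
  have h1 : ∀ᶠ w in 𝓝[≠] z1, f (Complex.exp w) = a := by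
    have h2 := cod_ev (Fn_cl_codis hfe) hz1O
    rw [← hT] at h2
    filter_upwards [h2, nhdsWithin_le_nhds hz1e] with w e1 e2
    rw [← e1, e2]
  exact mero_id_plane hf ((tendsto_exp_ne z1).frequently h1.frequently) z

/-- **Meromorphic functions on the plane.** -/
theorem plane (hX : X.Big) {g : Fin (n + 1) → ℂ → ℂ} {y : Fin r → ℂ → ℂ}
    (hg : ∀ j z, MeromorphicAt (g j) z) (hy : ∀ k z, MeromorphicAt (y k) z)
    (heq : ∀ z, ∀ᶠ w in 𝓝[≠] z, ∀ k,
      y k w ^ X.m k = ∏ i, (∑ j, X.c i j * g j w) ^ X.e k i)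
    (hoff : ∀ i, ∃ z, ∃ᶠ w in 𝓝[≠] z, ∑ j, X.c i j * g j w ≠ 0)
    (hbd : ∀ i ∈ X.bd, ∀ j, ∀ z,
      meromorphicOrderAt (fun w => ∑ j, X.c i j * g j w) z ≤ meromorphicOrderAt (g j) z)
    (i : Fin q) (j : Fin (n + 1)) :
    ∃ a : ℂ, ∀ z, ∀ᶠ w in 𝓝[≠] z, g j w = a * ∑ j, X.c i j * g j w := by
  have hlmz : ∀ i z, MeromorphicAt (fun w => ∑ j, X.c i j * g j w) z := fun i z =>
    MeromorphicAt.fun_sum fun j _ => (MeromorphicAt.const _ z).fun_mul (hg j z)
  have hge : ∀ j, MeromorphicOn (fun z => g j (Complex.exp z)) Om := fun i z _ =>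
    (hg i _).comp_analyticAt (analyticAt_cexp)
  have hye : ∀ k, MeromorphicOn (fun z => y k (Complex.exp z)) Om := fun k z _ =>
    (hy k _).comp_analyticAt (analyticAt_cexp)
  have hnz : ∀ i z, ∀ᶠ w in 𝓝[≠] z, ∑ j, X.c i j * g j w ≠ 0 := by
    intro i z
    rcases (hlmz i z).eventually_eq_zero_or_eventually_ne_zero with h1 | h1
    · exfalso
      obtain ⟨z', hfr⟩ := hoff i
      refine hfr ?_
      filter_upwards [mero_id_plane (hlmz i) h1.frequently z'] with w hw
      exact not_not.2 hw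
    · exact h1
  have hpt := pt_of_cod X hge hye
    (cod_of_ev fun x _ => (tendsto_exp_ne x).eventually (heq _))
    (fun i h => by
      have h1 := (tendsto_exp_ne 2).eventually (hnz i (Complex.exp 2))
      obtain ⟨w, hw1, hw2⟩ := (h1.and (cod_ev h two_mem)).exists
      exact hw1 hw2)
  have hlm : ∀ i, MeromorphicOn (fun w => ∑ j, X.c i j * g j (Complex.exp w)) Om := fun i =>
    lin_mero X hge i
  have hlin : ∀ i, X.lin i (fun j => cl (fun z => g j (Complex.exp z)) (hge j)) =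
      cl (fun w => ∑ j, X.c i j * g j (Complex.exp w)) (hlm i) := fun i => lin_cl X hge i (hlm i)
  have hint : ∀ (z : ℂ) (hz : z ∈ Om), ∀ i ∈ X.bd, ∀ j,
      (plc hz).Reg (cl (fun z => g j (Complex.exp z)) (hge j) /
        X.lin i (fun j => cl (fun z => g j (Complex.exp z)) (hge j))) := by
    intro z hz i hi j
    have h0 := hpt.off i
    rw [hlin i] at h0 ⊢
    refine reg_quot _ _ hz h0 ?_
    have hder : ∀ f : ℂ → ℂ,
        meromorphicOrderAt (fun w => f (Complex.exp w)) z = meromorphicOrderAt f (Complex.exp z) :=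
      fun f => meromorphicOrderAt_comp_of_deriv_ne_zero (f := f)
        (analyticAt_cexp (z := z)) (by
          rw [Complex.deriv_exp]
          exact Complex.exp_ne_zero z)
    rw [hder (fun w => ∑ j, X.c i j * g j w), hder (g j)]
    exact hbd i hi j _
  have hM := minf_of_pt X hX hpt hint i j
  let f : ℂ → ℂ := fun w => g j w / ∑ j, X.c i j * g j w
  have hf : ∀ z, MeromorphicAt f z := fun z => (hg j z).fun_div (hlmz i z)
  have hfe : MeromorphicOn (fun z => f (Complex.exp z)) Om := fun z _ =>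
    (hf _).comp_analyticAt (analyticAt_cexp)
  have h1 : cl (fun z => f (Complex.exp z)) hfe = cl (fun z => g j (Complex.exp z)) (hge j) /
      X.lin i (fun j => cl (fun z => g j (Complex.exp z)) (hge j)) := by
    rw [eq_div_iff (hpt.off i), hlin i]
    have h2 : cl (fun z => f (Complex.exp z)) hfe *
        cl (fun w => ∑ j, X.c i j * g j (Complex.exp w)) (hlm i) =
        cl (fun z => f (Complex.exp z) * ∑ j, X.c i j * g j (Complex.exp z))
          (hfe.mul (hlm i)) := rfl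
    rw [h2, cl_eq]
    refine cod_of_ev fun x _ => ?_
    filter_upwards [(tendsto_exp_ne x).eventually (hnz i (Complex.exp x))] with w hw
    exact div_mul_cancel₀ _ hw
  obtain ⟨a, ha⟩ := const_of_exp hf hfe (by rw [h1]; exact hM)
  refine ⟨a, fun z => ?_⟩
  filter_upwards [ha z, hnz i z] with w h2 h3
  rw [← h2]
  exact (div_mul_cancel₀ _ h3).symm

end Pool.Agent.Helper1K9.PN
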