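import Pool.Agent.Helper1K9.PN.Noc
import Pool.Agent.TH152.HY.Wrn
import Pool.Agent.Helper1K9.PK.GT

/-!
Varieties with generically finite maps to projective space which meet hyperplanes in subgeneral
position with high multiplicities (in a weighted sense) are of log general type.
-/

set_option autoImplicit false

open FF Pool.Agent.W603.LV Pool.Agent.W602.GT Pool.Agent.W602.Cov Pool.Agent.TH152.AC

namespace Pool.Agent.Helper1K9.PN

variable {K : Type} [Field K] [Algebra ℂ K]

/-- the value of a form -/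
noncomputable def fv {l : ℕ} (φ : Fin (l + 1) → K) (f : Form l) : K :=
  ∑ b, algebraMap ℂ K (f (Pi.single b 1)) * φ b

theorem fv_add {l : ℕ} (φ : Fin (l + 1) → K) (f g : Form l) : fv φ (f + g) = fv φ f + fv φ g := by
  unfold fv
  rw [← Finset.sum_add_distrib]
  refine Finset.sum_congr rfl fun b _ => ?_
  rw [LinearMap.add_apply, map_add, add_mul]

theorem fv_smul {l : ℕ} (φ : Fin (l + 1) → K) (c : ℂ) (f : Form l) :
    fv φ (c • f) = algebraMap ℂ K c * fv φ f := by
  unfold fv
  rw [Finset.mul_sum]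
  refine Finset.sum_congr rfl fun b _ => ?_
  rw [LinearMap.smul_apply, smul_eq_mul, map_mul, mul_assoc]

theorem fv_zero {l : ℕ} (φ : Fin (l + 1) → K) : fv φ 0 = 0 := by
  unfold fv
  simp

theorem iter_fv (E : Derivation ℂ K K) {l : ℕ} (φ : Fin (l + 1) → K) (f : Form l) (r : ℕ) :
    (⇑E)^[r] (fv φ f) = ∑ b, algebraMap ℂ K (f (Pi.single b 1)) * (⇑E)^[r] (φ b) := by
  induction r with
  | zero => rfl
  | succ r ih =>
    rw [Function.iterate_succ_apply', ih, map_sum]
    refine Finset.sum_congr rfl fun b _ => ?_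
    rw [E.leibniz, E.map_algebraMap, smul_zero, add_zero, smul_eq_mul,
      Function.iterate_succ_apply']

theorem wr_fv (E : Derivation ℂ K K) {l : ℕ} (φ : Fin (l + 1) → K) (B : Fin (l + 1) → Form l) :
    wr E (fun a => fv φ (B a)) =
      algebraMap ℂ K (Matrix.of fun a b : Fin (l + 1) => B a (Pi.single b 1)).det * wr E φ := by
  have h1 : wm (n := l + 1) E (fun a => fv φ (B a)) =
      (algebraMap ℂ K).mapMatrix (Matrix.of fun a b : Fin (l + 1) => B a (Pi.single b 1)) *
        wm (n := l + 1) E φ := by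
    ext a r
    rw [Matrix.mul_apply]
    change (⇑E)^[(r : ℕ)] (fv φ (B a)) = _
    rw [iter_fv]
    rfl
  unfold wr
  rw [h1, Matrix.det_mul, RingHom.map_det]

/-- transcendence bases in a generating family -/
theorem exists_basis0 {k L : Type} [Field k] [Field L] [Algebra k L] {ι : Type} {ρ : ι → L}
    (halg : Algebra.IsAlgebraic (IntermediateField.adjoin k (Set.range ρ)) L) {w : ℕ}
    (hw : Algebra.trdeg k L = w) : ∃ β : Fin w → ι,
      IsTranscendenceBasis k (fun a => ρ (β a)) := by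
  classical
  have halg' := Pool.Agent.W602.GT.alg_adjoin halg
  have hs : AlgebraicIndepOn k id (∅ : Set L) := algebraicIndependent_empty
  obtain ⟨u, hsu, hut, hu⟩ := exists_isTranscendenceBasis_between (R := k) (A := L) ∅
    (Set.range ρ) (Set.empty_subset _) hs
  have hcard := hu.cardinalMk_eq_trdeg
  rw [hw] at hcard
  have hfin : Finite u := by
    rw [← Cardinal.mk_lt_aleph0_iff, hcard]
    exact Cardinal.natCast_lt_aleph0
  have hf := Fintype.ofFinite u
  have hc : Fintype.card u = w := by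
    rw [Cardinal.mk_fintype] at hcard
    exact_mod_cast hcard
  let e : Fin w ≃ u := (Fintype.equivFinOfCardEq hc).symm
  let f : u → ι := fun x => (hut x.2).choose
  have hfx : ∀ x : u, ρ (f x) = x := fun x => (hut x.2).choose_spec
  refine ⟨f ∘ e, ?_⟩
  have h1 : (fun a => ρ ((f ∘ e) a)) = (fun x : u => (x : L)) ∘ e := by
    funext a
    exact hfx _
  rw [h1]
  exact (isTranscendenceBasis_equiv e).2 hu

/-- **Varieties with generically finite maps to projective space which meet hyperplanes with high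
multiplicities are of log general type.** -/
theorem lgt_core {l q : ℕ} (hl : 1 ≤ l) {ℓ : Fin q → Form l} {φ : Fin (l + 1) → K}
    (hφ : LinearIndependent ℂ φ) (hU : ∀ i, fv φ (ℓ i) ≠ 0) {Dn : ℕ} {c : Fin q → ℕ} (hDn : 0 < Dn)
    (hc : ∀ F : Finset (Fin q), NS ℓ F → ∑ i ∈ F, c i ≤ Dn * rk ℓ F)
    (hne : Nonempty (Bases ℓ)) (p : Fin q → ℕ) {Q : ℕ} (hQ : 0 < Q)
    (hbig : Q * Dn * (l + 1) + Dn * tn (l + 1) * ∑ i, p i < Q * ∑ i, c i)
    (i0 : Fin q)
    (halg : Algebra.IsAlgebraic
      (IntermediateField.adjoin ℂ (Set.range fun i => fv φ (ℓ i) / fv φ (ℓ i0))) K) {w : ℕ}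
    (hw : Algebra.trdeg ℂ K = w) {Bd : Place ℂ K → Prop}
    (hadm : ∀ (P : Place ℂ K), ¬ Bd P → ∀ (v : Fin q → ℕ) (μ : ℤ), v ≠ 0 →
      (∀ i, P.ord (fv φ (ℓ i)) = μ + v i) → Submodule.span ℂ (ℓ '' {i | v i ≠ 0}) ≠ ⊤ →
      Q ≤ ∑ i, p i * v i) : LogGeneralType ℂ K w Bd := by
  classical
  obtain ⟨U, hUd⟩ : ∃ U : Fin q → K, ∀ i, fv φ (ℓ i) = U i := ⟨_, fun _ => rfl⟩
  have hU0 : ∀ i, U i ≠ 0 := fun i => by rw [← hUd]; exact hU i
  simp only [hUd] at halg hadm
  obtain ⟨β, hbas⟩ := exists_basis0 halg hw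
  obtain ⟨t, ht⟩ : ∃ t : Fin w → K, t = fun a => U (β a) / U i0 := ⟨_, rfl⟩
  simp only [hUd] at hbas
  have hbas' : IsTranscendenceBasis ℂ t := by rw [ht]; exact hbas
  have ht0 : ∀ a, t a ≠ 0 := fun a => by
    rw [ht]
    exact div_ne_zero (hU0 _) (hU0 _)
  have hpt : (∏ a, t a) ≠ 0 := Finset.prod_ne_zero_iff.2 fun a _ => ht0 a
  obtain ⟨lam, hlam⟩ := exists_lam ℂ w
  obtain ⟨D0, hD0⟩ := exists_der t hbas' (fun j => algebraMap ℂ K (lam j) * t j)
  have hconst : ∀ h, D0 h = 0 → ∃ c : ℂ, h = algebraMap ℂ K c := fun h hh =>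
    const_of_der t hbas' lam hlam D0 hD0 hh
  have hW0 : wr D0 φ ≠ 0 := wr_ne hconst _ hφ
  obtain ⟨T, hT⟩ : ∃ T, T = tn (l + 1) := ⟨_, rfl⟩
  rw [← hT] at hbig
  have hT1 : 1 ≤ T := by
    rw [hT]
    unfold tn
    have := Finset.single_le_sum (f := fun r : Fin (l + 1) => (r : ℕ)) (fun _ _ => Nat.zero_le _)
      (Finset.mem_univ (⟨1, by omega⟩ : Fin (l + 1)))
    exact this
  obtain ⟨κ, hκ⟩ : ∃ κ, Q * ∑ i, c i = Q * Dn * (l + 1) + Dn * T * ∑ i, p i + (κ + 1) :=
    ⟨Q * ∑ i, c i - (Q * Dn * (l + 1) + Dn * T * ∑ i, p i) - 1, by omega⟩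
  -- the exponents
  let ex : Fin q → ℤ := fun i => (Dn * T * p i : ℤ) - Q * c i
  let M : Fin (w + 1) → K := Fin.cases (U i0 ^ (κ + 1)) fun a => U (β a) * U i0 ^ κ
  have hM0 : ∀ j, M j ≠ 0 := by
    intro j
    refine Fin.cases ?_ (fun a => ?_) j
    · exact pow_ne_zero _ (hU0 _)
    · exact mul_ne_zero (hU0 _) (pow_ne_zero _ (hU0 _))
  let V : K := ∏ i, U i ^ ex i
  have hV0 : V ≠ 0 := Finset.prod_ne_zero_iff.2 fun i _ => zpow_ne_zero _ (hU0 i)
  obtain ⟨N, hN⟩ : ∃ N, N = T * (Q * Dn) := ⟨_, rfl⟩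
  have hN0 : 0 < N := by
    rw [hN]
    exact Nat.mul_pos hT1 (Nat.mul_pos hQ hDn)
  let G : Fin (w + 1) → K := fun j => wr D0 φ ^ (Q * Dn) * V * M j / (∏ a, t a) ^ N
  -- the forms
  have hkey : ∀ (j : Fin (w + 1)) (D : Fin w → Derivation ℂ K K),
      form t N (G j) D = wr (con t lam D) φ ^ (Q * Dn) * V * M j := by
    intro j D
    have h1 : con t lam D = (lmat t D).det • D0 := by
      apply der_ext t hbas'
      intro l
      rw [con_t t lam D ht0 l, Derivation.coe_smul, Pi.smul_apply, hD0, smul_eq_mul]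
      ring
    have h2 : (Matrix.of fun i j => D i (t j)).det = (∏ j, t j) * (lmat t D).det := by
      rw [← Matrix.det_mul_row]
      congr 1
      ext i j
      simp only [Matrix.of_apply, lmat]
      have := ht0 j
      field_simp
    have h3 := wr_change D0 (lmat t D).det 1 φ
    simp only [one_mul, mul_one] at h3
    rw [Finset.prod_pow_eq_pow_sum] at h3
    have h4 : (∑ r : Fin (l + 1), (r : ℕ)) = T := by rw [hT]; rfl
    rw [h4] at h3
    unfold form
    rw [h1, h2]
    simp only [G]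
    have h5 : wr ((lmat t D).det • D0) φ = (lmat t D).det ^ T * wr D0 φ := by
      rw [h3]
      try ring
    rw [h5, mul_pow, mul_pow, ← pow_mul, ← hN]
    field_simp
  -- the orders
  have hord : ∀ P : Place ℂ K, ∃ (v : Fin q → ℕ) (μ : ℤ), (∀ i, P.ord (U i) = μ + v i) ∧
      Submodule.span ℂ (ℓ '' {i | v i ≠ 0}) ≠ ⊤ := by
    intro P
    obtain ⟨i1, hi1⟩ : ∃ i1, ∀ i, P.ord (U i1) ≤ P.ord (U i) := by
      have : Nonempty (Fin q) := ⟨i0⟩
      exact Finite.exists_min _
    refine ⟨fun i => (P.ord (U i) - P.ord (U i1)).toNat, P.ord (U i1), fun i => ?_, fun htop => ?_⟩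
    · have := hi1 i
      rw [Int.toNat_of_nonneg (by linarith)]
      ring
    · have h1 : ∀ f : Form l, Ge P (P.ord (U i1) + 1) (fv φ f) := by
        intro f
        have h2 : f ∈ Submodule.span ℂ
            (ℓ '' {i | (P.ord (U i) - P.ord (U i1)).toNat ≠ 0}) := by
          rw [htop]
          trivial
        induction h2 using Submodule.span_induction with
        | mem y hy =>
          obtain ⟨i, hi, rfl⟩ := hy
          rw [hUd]
          have hi' : (P.ord (U i) - P.ord (U i1)).toNat ≠ 0 := hi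
          exact Or.inr (by omega)
        | zero => rw [fv_zero]; exact Or.inl rfl
        | add a b _ _ h1 h2 => rw [fv_add]; exact h1.add h2
        | smul c a _ h1 =>
          rw [fv_smul]
          have := (Ge.const (P := P) c).mul h1
          rwa [zero_add] at this
      have h2 := h1 (ℓ i1)
      rw [hUd] at h2
      rcases h2 with h2 | h2
      · exact hU0 _ h2
      · omega
  -- the local estimate
  have hlocal : ∀ (P : Place ℂ K) (j : Fin (w + 1)) (v : Fin q → ℕ) (μ : ℤ) (E : Derivation ℂ K K)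
      (B : Bases ℓ) (ε : ℤ), (∀ i, P.ord (U i) = μ + v i) →
      ∑ i, c i * v i ≤ Dn * ∑ a, v (B.1 a) →
      Ge P ((l + 1) * μ + ∑ a, (v (B.1 a) : ℤ) - ε * T) (wr E φ) →
      (Q : ℤ) * ε ≤ ∑ i, (p i * v i : ℤ) → P.Reg (wr E φ ^ (Q * Dn) * V * M j) := by
    intro P j v μ E B ε hv hcB hE hε
    rw [reg_iff_ge]
    have hVo : P.ord V = ∑ i, ex i * (μ + v i) := by
      simp only [V]
      rw [PK.ord_prod_univ P _ _ fun i _ => zpow_ne_zero _ (hU0 i)]
      refine Finset.sum_congr rfl fun i _ => ?_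
      rw [P.ord_zpow, hv]
    have hMo : (κ + 1) * μ ≤ P.ord (M j) := by
      refine Fin.cases ?_ (fun a => ?_) j
      · change _ ≤ P.ord (U i0 ^ (κ + 1))
        rw [P.ord_pow, hv]
        push_cast
        have : (0 : ℤ) ≤ (κ + 1) * v i0 := by positivity
        linarith
      · change _ ≤ P.ord (U (β a) * U i0 ^ κ)
        rw [P.ord_mul (hU0 _) (pow_ne_zero _ (hU0 _)), P.ord_pow, hv, hv]
        have h1 : (0 : ℤ) ≤ κ * v i0 := by positivity
        have h2 : (0 : ℤ) ≤ v (β a) := by positivity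
        linarith
    have htot := ((hE.pow (Q * Dn)).mul (ge_ord P V)).mul (ge_ord P (M j))
    refine htot.mono ?_
    rw [hVo]
    have h1 : ∑ i, ex i * (μ + v i) = μ * (Dn * T * ∑ i, (p i : ℤ) - Q * ∑ i, (c i : ℤ)) +
        (Dn * T * ∑ i, (p i * v i : ℤ) - Q * ∑ i, (c i * v i : ℤ)) := by
      simp only [ex]
      simp only [Finset.mul_sum]
      rw [← Finset.sum_sub_distrib, ← Finset.sum_sub_distrib, Finset.mul_sum,
        ← Finset.sum_add_distrib]
      refine Finset.sum_congr rfl fun i _ => ?_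
      ring
    rw [h1]
    have h2 : (Q : ℤ) * ∑ i, (c i : ℤ) = Q * Dn * (l + 1) + Dn * T * ∑ i, (p i : ℤ) + (κ + 1) := by
      exact_mod_cast hκ
    have h3 : ∑ i, (c i * v i : ℤ) ≤ Dn * ∑ a, (v (B.1 a) : ℤ) := by exact_mod_cast hcB
    have h4 : (0 : ℤ) ≤ Q := by positivity
    have h5 : (0 : ℤ) ≤ Dn * T := by positivity
    have h6 := mul_le_mul_of_nonneg_left h3 h4
    have h7 := mul_le_mul_of_nonneg_left hε h5
    push_cast
    rw [h2]
    nlinarith [hMo, h6, h7]
  -- Wronskians
  have hdet : ∀ B : Bases ℓ,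
      (Matrix.of fun a b : Fin (l + 1) => ℓ (B.1 a) (Pi.single b 1)).det ≠ 0 := fun B =>
    Pool.Agent.TH152.HY.det_ne (fun a => ℓ (B.1 a)) B.2
  have hwB : ∀ (P : Place ℂ K) (E : Derivation ℂ K K) (B : Bases ℓ) (m : ℤ),
      Ge P m (wr E fun a => U (B.1 a)) → Ge P m (wr E φ) := by
    intro P E B m h
    have h1 := wr_fv E φ fun a => ℓ (B.1 a)
    simp only [hUd] at h1
    rw [h1] at h
    have h2 := (Ge.const (P := P)
      (Matrix.of fun a b : Fin (l + 1) => ℓ (B.1 a) (Pi.single b 1)).det⁻¹).mul h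
    rw [zero_add, ← mul_assoc, ← map_mul, inv_mul_cancel₀ (hdet B), map_one, one_mul] at h2
    exact h2
  have hpole : ∀ (P : Place ℂ K) (E : Derivation ℂ K K) (B : Bases ℓ) (v : Fin q → ℕ) (μ ε : ℤ),
      (∀ i, P.ord (U i) = μ + v i) → (∀ x : K, x ≠ 0 → Ge P (-ε) (E x / x)) →
      Ge P ((l + 1) * μ + ∑ a, (v (B.1 a) : ℤ) - ε * T) (wr E φ) := by
    intro P E B v μ ε hv hE
    apply hwB P E B
    have h1 := wr_log hE fun a => U (B.1 a)
    rw [tri_eq, ← hT] at h1
    refine h1.mono (le_of_eq ?_)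
    simp only [hv]
    rw [Finset.sum_add_distrib, Finset.sum_const, Finset.card_univ, Fintype.card_fin,
      nsmul_eq_mul]
    push_cast
    ring
  refine ⟨hw, N, hN0, fun j => form t N (G j), fun j => form_pluri _ _ _, ?_, ?_, ?_⟩
  · -- logarithmic poles
    intro P _ j D hD
    change P.Reg (form t N (G j) D)
    rw [hkey]
    obtain ⟨v, μ, hv, hns⟩ := hord P
    obtain ⟨B, hB⟩ := orders' hc hne v hns
    refine hlocal P j v μ _ B 0 hv hB (hpole P _ B v μ 0 hv fun x _ => ?_) ?_
    · rw [neg_zero]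
      exact con_log t lam D hD x
    · rw [mul_zero]
      positivity
  · -- regular forms
    intro P _ hBd j D hD
    change P.Reg (form t N (G j) D)
    rw [hkey]
    obtain ⟨v, μ, hv, hns⟩ := hord P
    obtain ⟨B, hB⟩ := orders' hc hne v hns
    by_cases hv0 : v = 0
    · have ht0' : ∀ a, P.ord (t a) = 0 := by
        intro a
        rw [ht]
        change P.ord (U (β a) / U i0) = 0
        rw [P.ord_div (hU0 _) (hU0 _), hv, hv, hv0]
        simp
      have hE := con_reg t lam D hD ht0 ht0'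
      refine hlocal P j v μ _ B 0 hv hB (hwB P _ B _ ?_) ?_
      · have h1 : (fun a => U (B.1 a)) = fun a => U i0 * (U (B.1 a) / U i0) := by
          funext a
          have := hU0 i0
          field_simp
        have h2 := wr_change (con t lam D) 1 (U i0) fun a => U (B.1 a) / U i0
        rw [one_smul] at h2
        rw [h1, h2]
        simp only [one_pow, one_mul, Finset.prod_const, Finset.card_univ, Fintype.card_fin]
        have h3 : Ge P 0 (wr (con t lam D) fun a => U (B.1 a) / U i0) := by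
          apply wr_reg hE
          intro a
          refine Or.inr ?_
          rw [P.ord_div (hU0 _) (hU0 _), hv, hv, hv0]
          simp
        have h4 := ((ge_ord P (U i0)).pow (l + 1)).mul h3
        refine h4.mono (le_of_eq ?_)
        rw [hv, hv0]
        simp
      · rw [mul_zero]
        positivity
    · refine hlocal P j v μ _ B 1 hv hB (hpole P _ B v μ 1 hv fun x hx => ?_) ?_
      · exact con_pole t lam D hD ht0 hx
      · rw [mul_one]
        exact_mod_cast hadm P hBd v μ hv0 hv hns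
  · have hdual : ∀ a : Fin w, ∃ D : Derivation ℂ K K, ∀ c, D (t c) = if a = c then 1 else 0 :=
      fun a => exists_der t hbas' fun c => if a = c then 1 else 0
    choose D1 hD1 using hdual
    have hd1 : (Matrix.of fun i j => D1 i (t j)).det = 1 := by
      have h1 : (Matrix.of fun i j => D1 i (t j)) = 1 := by
        ext i j
        rw [Matrix.of_apply, hD1, Matrix.one_apply]
      rw [h1, Matrix.det_one]
    have hf : ∀ j, form t N (G j) D1 = G j := by
      intro j
      unfold form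
      rw [hd1, one_pow, mul_one]
    have hG0 : ∀ j, G j ≠ 0 := fun j =>
      div_ne_zero (mul_ne_zero (mul_ne_zero (pow_ne_zero _ hW0) hV0) (hM0 j)) (pow_ne_zero _ hpt)
    refine ⟨D1, ?_, ?_⟩
    · change form t N (G 0) D1 ≠ 0
      rw [hf]
      exact hG0 0
    · have h1 : (fun i : Fin w => form t N (G i.succ) D1 / form t N (G 0) D1) = t := by
        funext i
        rw [hf, hf]
        have h2 : M i.succ = t i * M 0 := by
          change U (β i) * U i0 ^ κ = t i * U i0 ^ (κ + 1)
          rw [ht]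
          have := hU0 i0
          change _ = U (β i) / U i0 * _
          rw [pow_succ]
          field_simp
        rw [div_eq_iff (hG0 0)]
        simp only [G]
        rw [h2]
        ring
      change AlgebraicIndependent ℂ (fun i : Fin w => form t N (G i.succ) D1 / form t N (G 0) D1)
      rw [h1]
      exact hbas'.1

end Pool.Agent.Helper1K9.PN
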