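import Pool.Agent.TH152.HY.Ineq

/-!
Nochka weights: weights for hyperplanes in subgeneral position.
-/

set_option autoImplicit false

open Pool.Agent.W602.Cov Module Pool.Agent.TH152.AC

namespace Pool.Agent.Helper1K9.PN

variable {n q : ℕ} {ℓ : Fin q → Form n}

/-- the hyperplanes are in `N`-subgeneral position: no point is contained in `N + 1` of them -/
def Subg (N : ℕ) (ℓ : Fin q → Form n) : Prop :=
  ∀ F : Finset (Fin q), F.card = N + 1 → Submodule.span ℂ (ℓ '' (F : Set (Fin q))) = ⊤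

/-- there is a common zero -/
def NS (ℓ : Fin q → Form n) (F : Finset (Fin q)) : Prop :=
  Submodule.span ℂ (ℓ '' (F : Set (Fin q))) ≠ ⊤

theorem rk_mono {F G : Finset (Fin q)} (h : F ⊆ G) : rk ℓ F ≤ rk ℓ G :=
  Submodule.finrank_mono (Submodule.span_mono (Set.image_mono (by exact_mod_cast h)))

theorem rk_le (F : Finset (Fin q)) : rk ℓ F ≤ n + 1 := by
  unfold rk
  have h := Submodule.finrank_le (Submodule.span ℂ (ℓ '' (F : Set (Fin q))))
  rwa [finrank_form] at h

theorem rk_top {F : Finset (Fin q)} (h : ¬ NS ℓ F) : rk ℓ F = n + 1 := by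
  unfold rk
  rw [not_not.1 h, finrank_top, finrank_form]

theorem rk_lt {F : Finset (Fin q)} (h : NS ℓ F) : rk ℓ F < n + 1 := by
  refine lt_of_le_of_ne (rk_le F) fun h1 => h ?_
  apply Submodule.eq_top_of_finrank_eq
  rw [finrank_form]
  exact h1

theorem NS.mono {F G : Finset (Fin q)} (h : F ⊆ G) (hG : NS ℓ G) : NS ℓ F := by
  intro h1
  apply hG
  rw [eq_top_iff, ← h1]
  exact Submodule.span_mono (Set.image_mono (by exact_mod_cast h))

theorem rk_empty : rk ℓ ∅ = 0 := by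
  unfold rk
  simp

theorem ns_empty : NS ℓ ∅ := by
  intro h
  have h1 : rk ℓ ∅ = n + 1 := rk_top (not_not.2 h)
  rw [rk_empty] at h1
  omega

/-- submodularity -/
theorem rk_submod (F G : Finset (Fin q)) : rk ℓ (F ∪ G) + rk ℓ (F ∩ G) ≤ rk ℓ F + rk ℓ G := by
  unfold rk
  have h1 := Submodule.finrank_sup_add_finrank_inf_eq (Submodule.span ℂ (ℓ '' (F : Set (Fin q))))
    (Submodule.span ℂ (ℓ '' (G : Set (Fin q))))
  have h2 : Submodule.span ℂ (ℓ '' ((F ∪ G : Finset (Fin q)) : Set (Fin q))) =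
      Submodule.span ℂ (ℓ '' (F : Set (Fin q))) ⊔ Submodule.span ℂ (ℓ '' (G : Set (Fin q))) := by
    rw [Finset.coe_union, Set.image_union, Submodule.span_union]
  have h3 : finrank ℂ (Submodule.span ℂ (ℓ '' ((F ∩ G : Finset (Fin q)) : Set (Fin q)))) ≤
      finrank ℂ (Submodule.span ℂ (ℓ '' (F : Set (Fin q))) ⊓
        Submodule.span ℂ (ℓ '' (G : Set (Fin q))) : Submodule ℂ (Form n)) := by
    apply Submodule.finrank_mono
    rw [le_inf_iff]
    exact ⟨Submodule.span_mono (Set.image_mono (by simp)),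
      Submodule.span_mono (Set.image_mono (by simp))⟩
  rw [h2]
  omega

theorem rk_le_card (F : Finset (Fin q)) : rk ℓ F ≤ F.card := by
  classical
  unfold rk
  have h1 := finrank_span_finset_le_card (R := ℂ) (F.image ℓ)
  rw [Set.finrank, Finset.coe_image] at h1
  exact h1.trans Finset.card_image_le

/-- independent subsets -/
theorem exists_indep (B : Finset (Fin q)) : ∃ I ⊆ B, I.card = rk ℓ B ∧
    ∀ F : Finset (Fin q), (F ∩ I).card ≤ rk ℓ (F ∩ B) := by
  classical
  obtain ⟨f, hf1, hf2, hf3⟩ := Submodule.exists_fun_fin_finrank_span_eq ℂ (ℓ '' (B : Set (Fin q)))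
  choose g hg1 hg2 using hf1
  have hginj : Function.Injective g := by
    intro a b hab
    apply hf3.injective
    rw [← hg2, ← hg2, hab]
  refine ⟨Finset.univ.image g, ?_, ?_, ?_⟩
  · intro i hi
    obtain ⟨a, -, rfl⟩ := Finset.mem_image.1 hi
    exact_mod_cast hg1 a
  · rw [Finset.card_image_of_injective _ hginj, Finset.card_univ, Fintype.card_fin]
    rfl
  · intro F
    have h1 : (F ∩ Finset.univ.image g) = (Finset.univ.filter fun a => g a ∈ F).image g := by
      ext i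
      simp only [Finset.mem_inter, Finset.mem_image, Finset.mem_univ, true_and,
        Finset.mem_filter]
      constructor
      · rintro ⟨hi, a, rfl⟩
        exact ⟨a, hi, rfl⟩
      · rintro ⟨a, ha, rfl⟩
        exact ⟨ha, a, rfl⟩
    rw [h1, Finset.card_image_of_injective _ hginj]
    have h2 : LinearIndependent ℂ (fun a : {a // g a ∈ F} => f a.1) :=
      hf3.comp Subtype.val Subtype.val_injective
    have h3 := finrank_span_eq_card h2
    have h4 : (Finset.univ.filter fun a => g a ∈ F).card = Fintype.card {a // g a ∈ F} :=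
      (Fintype.card_subtype _).symm
    rw [h4, ← h3]
    unfold rk
    apply Submodule.finrank_mono
    apply Submodule.span_mono
    rintro _ ⟨⟨a, ha⟩, rfl⟩
    exact ⟨g a, by exact_mod_cast Finset.mem_inter.2 ⟨ha, by exact_mod_cast hg1 a⟩, hg2 a⟩

/-- sets of hyperplanes with a common point -/
theorem card_bound {N : ℕ} (hN : Subg N ℓ) (hq : N + 1 ≤ q) {F : Finset (Fin q)} (hF : NS ℓ F) :
    F.card + n ≤ N + rk ℓ F := by
  classical
  have h1 : F.card ≤ N := by
    by_contra hcon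
    obtain ⟨G, hGF, hG⟩ := Finset.exists_subset_card_eq (s := F) (n := N + 1) (by omega)
    exact (hF.mono hGF) (hN G hG)
  obtain ⟨G, hFG, hG⟩ := Finset.exists_superset_card_eq (s := F) (n := N + 1) (by omega)
    (by rw [Fintype.card_fin]; exact hq)
  have h2 : rk ℓ G = n + 1 := rk_top (not_not.2 (hN G hG))
  have h3 := rk_submod (ℓ := ℓ) F (G \ F)
  rw [Finset.union_sdiff_of_subset hFG, h2] at h3
  have h4 := rk_le_card (ℓ := ℓ) (G \ F)
  have h5 := Finset.card_sdiff_add_card_eq_card hFG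
  omega

/-- **Nochka weights.** -/
theorem nochka {N : ℕ} (hN : Subg N ℓ) (hnN : n ≤ N) (hq : 2 * N + 1 ≤ q + n) :
    ∃ (D : ℕ) (c : Fin q → ℕ), 0 < D ∧ (∀ F : Finset (Fin q), NS ℓ F →
      ∑ i ∈ F, c i ≤ D * rk ℓ F) ∧ (n + 1) * (q * D) ≤ (2 * N + 1 - n) * ∑ i, c i := by
  classical
  have hq1 : N + 1 ≤ q := by omega
  obtain ⟨K, hK⟩ : ∃ K, K = 2 * N + 1 - n := ⟨_, rfl⟩
  have hK' : K + n = 2 * N + 1 := by omega
  -- the extremal set
  obtain ⟨B, hB, hmax⟩ := Finset.exists_max_image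
    ((Finset.univ : Finset (Finset (Fin q))).filter fun F => NS ℓ F)
    (fun F => ((n + 1 - rk ℓ F : ℕ) : ℚ) / ((K - F.card : ℕ) : ℚ))
    ⟨∅, Finset.mem_filter.2 ⟨Finset.mem_univ _, ns_empty⟩⟩
  have hBns : NS ℓ B := (Finset.mem_filter.1 hB).2
  have hd : ∀ F, NS ℓ F → 0 < K - F.card := by
    intro F hF
    have h1 := card_bound hN hq1 hF
    have h2 := rk_lt hF
    omega
  have hmax' : ∀ F, NS ℓ F →
      (n + 1 - rk ℓ F) * (K - B.card) ≤ (n + 1 - rk ℓ B) * (K - F.card) := by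
    intro F hF
    have h1 := hmax F (Finset.mem_filter.2 ⟨Finset.mem_univ _, hF⟩)
    have h2 : (0 : ℚ) < ((K - F.card : ℕ) : ℚ) := by exact_mod_cast hd F hF
    have h3 : (0 : ℚ) < ((K - B.card : ℕ) : ℚ) := by exact_mod_cast hd B hBns
    rw [div_le_div_iff₀ h2 h3] at h1
    exact_mod_cast h1
  obtain ⟨I, hIB, hIc, hIF⟩ := exists_indep (ℓ := ℓ) B
  obtain ⟨D, hD⟩ : ∃ D, D = K - B.card := ⟨_, rfl⟩
  obtain ⟨a, ha⟩ : ∃ a, a = n + 1 - rk ℓ B := ⟨_, rfl⟩
  rw [← hD, ← ha] at hmax'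
  have hD0 : 0 < D := by rw [hD]; exact hd B hBns
  have hBr := rk_lt hBns
  have hBc := card_bound hN hq1 hBns
  let c : Fin q → ℕ := fun i => (if i ∈ I then D else 0) + if i ∈ B then 0 else a
  have hsumc : ∀ F : Finset (Fin q), ∑ i ∈ F, c i = D * (F ∩ I).card + a * (F \ B).card := by
    intro F
    simp only [c]
    rw [Finset.sum_add_distrib]
    congr 1
    · rw [← Finset.sum_filter, Finset.sum_const, Finset.filter_mem_eq_inter, smul_eq_mul, mul_comm]
    · rw [Finset.sum_ite, Finset.sum_const_zero, zero_add, Finset.sum_const, smul_eq_mul, mul_comm]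
      congr 2
      ext i
      simp
  refine ⟨D, c, hD0, fun F hF => ?_, ?_⟩
  · rw [hsumc]
    have h1 := hIF F
    have h2 := rk_submod (ℓ := ℓ) F B
    have h3 : (F ∪ B).card = B.card + (F \ B).card := by
      rw [Finset.union_comm, ← Finset.card_union_of_disjoint Finset.disjoint_sdiff,
        Finset.union_sdiff_self_eq_union]
    by_cases hU : NS ℓ (F ∪ B)
    · have h4 := hmax' _ hU
      have h5 := card_bound hN hq1 hU
      have h6 := rk_lt hU
      have h7 := rk_mono (ℓ := ℓ) (Finset.subset_union_right (s₁ := F) (s₂ := B))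
      obtain ⟨y, hy⟩ : ∃ y, rk ℓ (F ∪ B) = rk ℓ B + y := ⟨rk ℓ (F ∪ B) - rk ℓ B, by omega⟩
      have e1 : n + 1 - rk ℓ (F ∪ B) = a - y := by omega
      have e2 : K - (F ∪ B).card = D - (F \ B).card := by omega
      have hya : y ≤ a := by omega
      have hFD : (F \ B).card ≤ D := by omega
      rw [e1, e2] at h4
      zify [hya, hFD] at h4
      have h8 : a * (F \ B).card ≤ D * y := by
        zify
        nlinarith
      calc D * (F ∩ I).card + a * (F \ B).card ≤ D * rk ℓ (F ∩ B) + D * y := by gcongr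
        _ = D * (rk ℓ (F ∩ B) + y) := by ring
        _ ≤ D * rk ℓ F := Nat.mul_le_mul_left _ (by omega)
    · have h4 := rk_top hU
      have h5 := card_bound hN hq1 hF
      have h6 : (F \ B).card + (F ∩ B).card = F.card := Finset.card_sdiff_add_card_inter F B
      have h7 := rk_le_card (ℓ := ℓ) (F ∩ B)
      have h9 := rk_mono (ℓ := ℓ) (Finset.inter_subset_left (s₁ := F) (s₂ := B))
      obtain ⟨y, hy⟩ : ∃ y, rk ℓ F = rk ℓ (F ∩ B) + y := ⟨rk ℓ F - rk ℓ (F ∩ B), by omega⟩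
      have hya : a ≤ y := by omega
      obtain ⟨t, ht⟩ : ∃ t, D = t + a := ⟨D - a, by omega⟩
      have htN : N ≤ t + n := by omega
      obtain ⟨s, hs⟩ : ∃ s, N = n + s := ⟨N - n, by omega⟩
      have hFB : (F \ B).card ≤ s + y := by omega
      have hst : s ≤ t := by omega
      have h8 : a * (F \ B).card ≤ D * y := by
        rw [ht]
        calc a * (F \ B).card ≤ a * (s + y) := Nat.mul_le_mul_left _ hFB
          _ = a * s + a * y := by ring
          _ ≤ y * t + a * y := by gcongr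
          _ = (t + a) * y := by ring
      calc D * (F ∩ I).card + a * (F \ B).card ≤ D * rk ℓ (F ∩ B) + D * y := by gcongr
        _ = D * (rk ℓ (F ∩ B) + y) := by ring
        _ = D * rk ℓ F := by rw [hy]
  · have h0 := hmax' ∅ ns_empty
    rw [rk_empty, Finset.card_empty, Nat.sub_zero, Nat.sub_zero] at h0
    have h1 := hsumc Finset.univ
    rw [Finset.univ_inter, hIc] at h1
    have h2 : (Finset.univ \ B).card + B.card = q := by
      have := Finset.card_sdiff_add_card_eq_card (Finset.subset_univ B)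
      rwa [Finset.card_univ, Fintype.card_fin] at this
    rw [h1, ← hK]
    obtain ⟨s, hs⟩ : ∃ s, q = K + s := ⟨q - K, by omega⟩
    have h3 : (Finset.univ \ B).card = D + s := by omega
    have h4 : rk ℓ B + a = n + 1 := by omega
    rw [h3]
    calc (n + 1) * (q * D) = (n + 1) * ((K + s) * D) := by rw [← hs]
      _ = K * ((n + 1) * D) + s * ((n + 1) * D) := by ring
      _ ≤ K * ((n + 1) * D) + s * (a * K) := by gcongr
      _ = K * (D * (rk ℓ B + a) + a * s) := by rw [h4]; ring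
      _ = _ := by ring

/-- **The inequality for the orders.** -/
theorem orders' {D : ℕ} {c : Fin q → ℕ}
    (hc : ∀ F : Finset (Fin q), NS ℓ F → ∑ i ∈ F, c i ≤ D * rk ℓ F)
    (hne : Nonempty (Bases ℓ)) (v : Fin q → ℕ)
    (hv : Submodule.span ℂ (ℓ '' {i | v i ≠ 0}) ≠ ⊤) :
    ∃ B' : Bases ℓ, ∑ i, c i * v i ≤ D * ∑ a, v (B'.1 a) := by
  classical
  obtain ⟨B1⟩ := hne
  obtain ⟨B', -, hmax⟩ := Finset.exists_max_image (Finset.univ : Finset (Bases ℓ))
    (fun B => ∑ a, v (B.1 a)) ⟨B1, Finset.mem_univ _⟩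
  refine ⟨B', ?_⟩
  obtain ⟨T0, hT0⟩ : ∃ T0 : ℕ, ∀ i, v i ≤ T0 :=
    ⟨∑ i, v i, fun i => Finset.single_le_sum (f := v) (fun _ _ => Nat.zero_le _)
      (Finset.mem_univ i)⟩
  let F : ℕ → Finset (Fin q) := fun t => Finset.univ.filter fun i => t ≤ v i
  have hFmem : ∀ t i, i ∈ F t ↔ t ≤ v i := by
    intro t i
    simp [F]
  have hclaim : ∀ t ∈ Finset.Icc 1 T0, ∑ i ∈ F t, c i ≤ D * cnt B'.1 (F t) := by
    intro t ht
    have ht1 : 1 ≤ t := (Finset.mem_Icc.mp ht).1
    have hfill : rk ℓ (F t) ≤ cnt B'.1 (F t) := fill v B' (fun B => hmax B (Finset.mem_univ _)) t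
    have hprop : NS ℓ (F t) := by
      intro htop
      apply hv
      rw [eq_top_iff, ← htop]
      apply Submodule.span_mono
      apply Set.image_mono
      intro i hi
      have hi' : t ≤ v i := (hFmem t i).1 hi
      show v i ≠ 0
      omega
    exact (hc (F t) hprop).trans (Nat.mul_le_mul_left _ hfill)
  have hsum := Finset.sum_le_sum hclaim
  have hlay : ∑ t ∈ Finset.Icc 1 T0, cnt B'.1 (F t) = ∑ a, v (B'.1 a) := by
    have e1 : ∀ t, cnt B'.1 (F t) = ∑ a, (if t ≤ v (B'.1 a) then 1 else 0) := by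
      intro t
      unfold cnt
      rw [Finset.card_filter]
      refine Finset.sum_congr rfl fun a _ => ?_
      simp only [hFmem]
    rw [Finset.sum_congr rfl fun t _ => e1 t, Finset.sum_comm]
    exact Finset.sum_congr rfl fun a _ => (layer (v (B'.1 a)) T0 (hT0 _)).symm
  have hlay2 : ∑ t ∈ Finset.Icc 1 T0, ∑ i ∈ F t, c i = ∑ i, c i * v i := by
    have e1 : ∀ t, ∑ i ∈ F t, c i = ∑ i, c i * (if t ≤ v i then 1 else 0) := by
      intro t
      simp only [F]
      rw [Finset.sum_filter]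
      refine Finset.sum_congr rfl fun i _ => ?_
      split_ifs <;> simp
    rw [Finset.sum_congr rfl fun t _ => e1 t, Finset.sum_comm]
    refine Finset.sum_congr rfl fun i _ => ?_
    rw [← Finset.mul_sum, ← layer (v i) T0 (hT0 _)]
  rw [← Finset.mul_sum, hlay, hlay2] at hsum
  exact hsum

open Pool.Agent.TH152.HY in
/-- **The inequality for the distances.** -/
theorem real_orders' {D : ℕ} {c : Fin q → ℕ}
    (hc : ∀ F : Finset (Fin q), NS ℓ F → ∑ i ∈ F, c i ≤ D * rk ℓ F)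
    (hne : Nonempty (Bases ℓ)) :
    ∃ C : ℝ, 0 ≤ C ∧ ∀ (x : Fin (n + 1) → ℂ) (σ : ℝ), (∀ i, ℓ i x ≠ 0) → (∀ i, ‖ℓ i x‖ ≤ σ) →
      (∃ i, ‖ℓ i x‖ = σ) → ∃ B' : Bases ℓ,
        ∑ i, (c i : ℝ) * Real.log (σ / ‖ℓ i x‖) ≤
          D * ∑ a, Real.log (σ / ‖ℓ (B'.1 a) x‖) + C := by
  classical
  set C0 : ℝ := Real.log (KK ℓ) with hC0
  have hC00 : 0 ≤ C0 := Real.log_nonneg (one_le_KK ℓ)
  refine ⟨(C0 + 1) * ∑ i, (c i : ℝ), by positivity, ?_⟩
  intro x σ hx0 hle hat
  have hσ : 0 < σ := by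
    obtain ⟨i, hi⟩ := hat
    rw [← hi]
    exact norm_pos_iff.mpr (hx0 i)
  have hpos : ∀ i, 0 < ‖ℓ i x‖ := fun i => norm_pos_iff.mpr (hx0 i)
  set lam : Fin q → ℝ := fun i => Real.log (σ / ‖ℓ i x‖) with hlam
  have hlam0 : ∀ i, 0 ≤ lam i := fun i => Real.log_nonneg (by
    rw [le_div_iff₀ (hpos i), one_mul]
    exact hle i)
  set v : Fin q → ℕ := fun i => ⌊lam i - C0⌋₊ with hv
  have hv1 : ∀ i, lam i ≤ v i + (C0 + 1) := fun i => by
    have := Nat.lt_floor_add_one (lam i - C0)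
    have h2 : ((v i : ℕ) : ℝ) = (⌊lam i - C0⌋₊ : ℝ) := rfl
    rw [h2]
    linarith
  have hv2 : ∀ i, (v i : ℝ) ≤ lam i := fun i => by
    by_cases h : 0 ≤ lam i - C0
    · have := Nat.floor_le h
      have h2 : ((v i : ℕ) : ℝ) = (⌊lam i - C0⌋₊ : ℝ) := rfl
      rw [h2]
      linarith
    · have : v i = 0 := Nat.floor_of_nonpos (by linarith)
      rw [this, Nat.cast_zero]
      exact hlam0 i
  have hsupp : Submodule.span ℂ (ℓ '' {i | v i ≠ 0}) ≠ ⊤ := by
    intro htop
    obtain ⟨B, hB⟩ := bases_in htop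
    obtain ⟨a, ha⟩ := some_large B hσ hat
    have h1 : v (B.1 a) ≠ 0 := hB a
    apply h1
    have h2 : lam (B.1 a) ≤ C0 := by
      simp only [hlam, hC0]
      apply Real.log_le_log (div_pos hσ (hpos _))
      rw [div_le_iff₀ (hpos _)]
      exact ha.le
    exact Nat.floor_of_nonpos (by linarith)
  obtain ⟨B', hB'⟩ := orders' hc hne v hsupp
  refine ⟨B', ?_⟩
  have h2 : ∑ i, (c i : ℝ) * (v i : ℝ) ≤ D * ∑ a, (v (B'.1 a) : ℝ) := by
    exact_mod_cast hB'
  calc ∑ i, (c i : ℝ) * lam i ≤ ∑ i, (c i : ℝ) * (v i + (C0 + 1)) :=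
        Finset.sum_le_sum fun i _ => mul_le_mul_of_nonneg_left (hv1 i) (Nat.cast_nonneg _)
    _ = ∑ i, (c i : ℝ) * (v i : ℝ) + (C0 + 1) * ∑ i, (c i : ℝ) := by
        rw [Finset.mul_sum, ← Finset.sum_add_distrib]
        exact Finset.sum_congr rfl fun i _ => by ring
    _ ≤ D * ∑ a, (v (B'.1 a) : ℝ) + (C0 + 1) * ∑ i, (c i : ℝ) := by linarith
    _ ≤ D * ∑ a, lam (B'.1 a) + (C0 + 1) * ∑ i, (c i : ℝ) := by
        have : ∑ a, (v (B'.1 a) : ℝ) ≤ ∑ a, lam (B'.1 a) := Finset.sum_le_sum fun a _ => hv2 _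
        have h3 := mul_le_mul_of_nonneg_left this (Nat.cast_nonneg D : (0 : ℝ) ≤ D)
        linarith

end Pool.Agent.Helper1K9.PN
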